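import Mathlib

/-!
# MP_e3f158_nt, thin progressions: the greedy covering lemma (helper33)

If every large subset `E` of `S` has a piece `P` (of weight `w P`) containing more than `w P * #E`
elements of `E`, then finitely many pieces of total weight `≤ log #S + 1` cover `S` up to `M` elements.
-/

set_option autoImplicit false

namespace Pool.Agent.Lib.MP_e3f158_nt.TP

open Finset

open Classical in
theorem greedy_aux {α : Type*} (mem : α → ℕ → Prop) (w : α → ℝ) (hw : ∀ P, 0 ≤ w P)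
    (M : ℝ) (hM : 1 ≤ M) (Gd : α → Prop) :
    ∀ k : ℕ, ∀ S : Finset ℕ, S.card = k → M ≤ (S.card : ℝ) →
      (∀ E ⊆ S, M ≤ (E.card : ℝ) →
        ∃ P, Gd P ∧ w P * (E.card : ℝ) < ((E.filter (mem P)).card : ℝ)) →
      ∃ PP : Finset α, (∀ P ∈ PP, Gd P) ∧ ∑ P ∈ PP, w P ≤ Real.log S.card + 1 ∧
        ((S.filter fun n => ∀ P ∈ PP, ¬ mem P n).card : ℝ) < M := by
  intro k
  induction k using Nat.strong_induction_on with
  | _ k ih =>
    intro S hSk hMS h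
    obtain ⟨P, hP, hPw⟩ := h S (Subset.refl S) hMS
    set E' := S.filter fun n => ¬ mem P n with hE'
    have hcard : (S.filter (mem P)).card + E'.card = S.card := by
      rw [hE']
      exact card_filter_add_card_filter_not (s := S) (mem P)
    have hcard' : ((S.filter (mem P)).card : ℝ) + (E'.card : ℝ) = (S.card : ℝ) := by
      exact_mod_cast hcard
    have hS0 : (0 : ℝ) < S.card := by linarith
    have hpos : 0 < (S.filter (mem P)).card := by
      have h1 : (0 : ℝ) < ((S.filter (mem P)).card : ℝ) := by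
        have := mul_nonneg (hw P) hS0.le
        linarith
      exact_mod_cast h1
    by_cases hlt : (E'.card : ℝ) < M
    · refine ⟨{P}, ?_, ?_, ?_⟩
      · intro Q hQ
        rw [mem_singleton] at hQ
        rw [hQ]; exact hP
      · rw [sum_singleton]
        have h1 : w P * (S.card : ℝ) < (S.card : ℝ) := by
          have : (0 : ℝ) ≤ E'.card := Nat.cast_nonneg _
          linarith
        have h2 : w P < 1 := by
          by_contra h3
          push Not at h3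
          nlinarith
        have h3 : 0 ≤ Real.log S.card := Real.log_nonneg (by linarith)
        linarith
      · refine lt_of_le_of_lt ?_ hlt
        norm_cast
        apply card_le_card
        intro n hn
        rw [mem_filter] at hn
        rw [hE', mem_filter]
        exact ⟨hn.1, hn.2 P (mem_singleton_self P)⟩
    · push Not at hlt
      have hlt' : E'.card < k := by omega
      obtain ⟨PP, h1, h2, h3⟩ := ih E'.card hlt' E' rfl hlt (fun E hE hME =>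
        h E (hE.trans (filter_subset _ _)) hME)
      refine ⟨insert P PP, ?_, ?_, ?_⟩
      · intro Q hQ
        rcases mem_insert.1 hQ with hQ | hQ
        · rw [hQ]; exact hP
        · exact h1 Q hQ
      · have h4 : ∑ Q ∈ insert P PP, w Q ≤ w P + ∑ Q ∈ PP, w Q := by
          by_cases hPP : P ∈ PP
          · rw [insert_eq_of_mem hPP]
            have := hw P
            linarith
          · rw [sum_insert hPP]
        have hE0 : (0 : ℝ) < E'.card := by linarith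
        have h5 : w P ≤ 1 - (E'.card : ℝ) / S.card := by
          rw [le_sub_iff_add_le, ← le_sub_iff_add_le', div_le_iff₀ hS0]
          nlinarith
        have h6 : Real.log ((E'.card : ℝ) / S.card) ≤ (E'.card : ℝ) / S.card - 1 :=
          Real.log_le_sub_one_of_pos (by positivity)
        rw [Real.log_div hE0.ne' hS0.ne'] at h6
        linarith
      · refine lt_of_le_of_lt ?_ h3
        norm_cast
        apply card_le_card
        intro n hn
        rw [mem_filter] at hn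
        rw [mem_filter, hE', mem_filter]
        refine ⟨⟨hn.1, hn.2 P (mem_insert_self _ _)⟩, fun Q hQ => hn.2 Q (mem_insert_of_mem hQ)⟩

open Classical in
/-- The greedy covering lemma. -/
theorem greedy {α : Type*} (mem : α → ℕ → Prop) (w : α → ℝ) (hw : ∀ P, 0 ≤ w P)
    (M : ℝ) (hM : 1 ≤ M) (Gd : α → Prop) (S : Finset ℕ)
    (h : ∀ E ⊆ S, M ≤ (E.card : ℝ) →
        ∃ P, Gd P ∧ w P * (E.card : ℝ) < ((E.filter (mem P)).card : ℝ)) :
      ∃ PP : Finset α, (∀ P ∈ PP, Gd P) ∧ ∑ P ∈ PP, w P ≤ Real.log S.card + 1 ∧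
        ((S.filter fun n => ∀ P ∈ PP, ¬ mem P n).card : ℝ) < M := by
  by_cases hS : M ≤ (S.card : ℝ)
  · exact greedy_aux mem w hw M hM Gd S.card S rfl hS h
  · push Not at hS
    refine ⟨∅, by simp, ?_, ?_⟩
    · rw [sum_empty]
      have h1 : 0 ≤ Real.log S.card := Real.log_natCast_nonneg _
      linarith
    · refine lt_of_le_of_lt ?_ hS
      norm_cast
      exact card_filter_le _ _

/-- An arithmetic progression `{c + i q : 0 ≤ i < T}`, as a triple `(c, q, T)`. -/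
def apMem (P : ℤ × ℕ × ℕ) (n : ℕ) : Prop := ∃ i : ℕ, i < P.2.2 ∧ (n : ℤ) = P.1 + (i : ℤ) * (P.2.1 : ℤ)

open Classical in
/-- Greedy covering by arithmetic progressions, in the form needed for the theorems on thin
progressions: total weight `≤ 1` and few progressions. -/
theorem greedy_ap (κ : ℝ) (hκ : 0 < κ) (K : ℕ) : ∃ K0 N0 : ℕ, K ≤ K0 ∧ ∀ N : ℕ, N0 ≤ N → ∀ M : ℝ, 1 ≤ M →
    ∀ S : Finset ℕ, S ⊆ Icc 1 N →
    (∀ E ⊆ S, M ≤ (E.card : ℝ) → ∃ P : ℤ × ℕ × ℕ,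
      (1 ≤ P.2.1 ∧ (P.2.1 : ℝ) ≤ (N : ℝ) ^ (1 / 2 : ℝ) ∧ (N : ℝ) ^ (1 / 2 : ℝ) / 64 ≤ (P.2.2 : ℝ) ∧
        (P.2.2 : ℝ) ≤ N / Real.log N ^ K0) ∧
      ((P.2.2 : ℝ) / N) ^ (κ / 2) * (E.card : ℝ) < ((E.filter (apMem P)).card : ℝ)) →
    ∃ PP : Finset (ℤ × ℕ × ℕ),
      (∀ P ∈ PP, 1 ≤ P.2.1 ∧ (P.2.1 : ℝ) ≤ (N : ℝ) ^ (1 / 2 : ℝ) ∧ 1 ≤ P.2.2 ∧
        (P.2.2 : ℝ) ≤ N / Real.log N ^ K) ∧
      (PP.card : ℝ) ≤ (N : ℝ) ^ κ ∧ ∑ P ∈ PP, ((P.2.2 : ℝ) / N) ^ κ ≤ 1 ∧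
      ((S.filter fun n => ∀ P ∈ PP, ¬ apMem P n).card : ℝ) < M := by
  classical
  have hκ2 : (0 : ℝ) < κ / 2 := by positivity
  -- the number of progressions is small
  have hN1 : ∃ N1 : ℕ, ∀ N : ℕ, N1 ≤ N → 2 ≤ Real.log N ∧
      (Real.log N + 1) * (64 : ℝ) ^ (κ / 2) * (N : ℝ) ^ (κ / 4) ≤ (N : ℝ) ^ κ := by
    have h1 : ∀ᶠ N : ℕ in Filter.atTop, (2 : ℝ) ≤ Real.log N :=
      (Real.tendsto_log_atTop.comp tendsto_natCast_atTop_atTop).eventually_ge_atTop 2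
    have h2 : (fun x : ℝ => Real.log x) =o[Filter.atTop] (fun x : ℝ => x ^ (κ / 2)) :=
      isLittleO_log_rpow_atTop hκ2
    have h3 : ∀ᶠ N : ℕ in Filter.atTop, Real.log N ≤ (N : ℝ) ^ (κ / 2) := by
      have h4 := h2.bound (c := 1) (by norm_num)
      have h5 := tendsto_natCast_atTop_atTop.eventually h4
      filter_upwards [h5, Filter.eventually_ge_atTop 1] with N hN hN1
      have hN0 : (1 : ℝ) ≤ N := by exact_mod_cast hN1
      rw [Real.norm_of_nonneg (Real.log_nonneg hN0), Real.norm_of_nonneg (by positivity), one_mul] at hN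
      exact hN
    have h6 : ∀ᶠ N : ℕ in Filter.atTop, 2 * (64 : ℝ) ^ (κ / 2) ≤ (N : ℝ) ^ (κ / 4) :=
      ((tendsto_rpow_atTop (by positivity : 0 < κ / 4)).comp
        tendsto_natCast_atTop_atTop).eventually_ge_atTop _
    obtain ⟨N1, hN1⟩ := Filter.eventually_atTop.1 ((h1.and h3).and h6)
    refine ⟨max N1 1, fun N hN => ?_⟩
    obtain ⟨⟨ha, hb⟩, hc⟩ := hN1 N (le_trans (le_max_left _ _) hN)
    have hN0 : (0 : ℝ) < N := by
      have : 1 ≤ N := le_trans (le_max_right _ _) hN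
      exact_mod_cast this
    refine ⟨ha, ?_⟩
    have h7 : Real.log N + 1 ≤ 2 * (N : ℝ) ^ (κ / 2) := by linarith
    calc (Real.log N + 1) * (64 : ℝ) ^ (κ / 2) * (N : ℝ) ^ (κ / 4)
        ≤ (2 * (N : ℝ) ^ (κ / 2)) * (64 : ℝ) ^ (κ / 2) * (N : ℝ) ^ (κ / 4) := by gcongr
      _ = (2 * (64 : ℝ) ^ (κ / 2)) * ((N : ℝ) ^ (κ / 2) * (N : ℝ) ^ (κ / 4)) := by ring
      _ ≤ (N : ℝ) ^ (κ / 4) * ((N : ℝ) ^ (κ / 2) * (N : ℝ) ^ (κ / 4)) := by gcongr
      _ = (N : ℝ) ^ κ := by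
          rw [← Real.rpow_add hN0, ← Real.rpow_add hN0]
          congr 1; ring
  obtain ⟨N1, hN1⟩ := hN1
  refine ⟨max K ⌈4 / κ⌉₊, max N1 1, le_max_left _ _, fun N hN M hM S hS h => ?_⟩
  obtain ⟨hL2, hcnt⟩ := hN1 N (le_trans (le_max_left _ _) hN)
  have hN1' : 1 ≤ N := le_trans (le_max_right _ _) hN
  have hN0 : (0 : ℝ) < N := by exact_mod_cast hN1'
  have hNge : (1 : ℝ) ≤ N := by exact_mod_cast hN1'
  set L : ℝ := Real.log N with hL
  set K0 : ℕ := max K ⌈4 / κ⌉₊ with hK0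
  have hL0 : 0 < L := by linarith
  let w : ℤ × ℕ × ℕ → ℝ := fun P => ((P.2.2 : ℝ) / N) ^ (κ / 2)
  have hw : ∀ P, 0 ≤ w P := fun P => by positivity
  obtain ⟨PP, h1, h2, h3⟩ := greedy apMem w hw M hM
    (fun P => 1 ≤ P.2.1 ∧ (P.2.1 : ℝ) ≤ (N : ℝ) ^ (1 / 2 : ℝ) ∧ (N : ℝ) ^ (1 / 2 : ℝ) / 64 ≤ (P.2.2 : ℝ) ∧
        (P.2.2 : ℝ) ≤ N / L ^ K0) S h
  have hSN : (S.card : ℝ) ≤ N := by
    have := card_le_card hS
    rw [Nat.card_Icc, Nat.add_sub_cancel] at this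
    exact_mod_cast this
  have h2' : ∑ P ∈ PP, w P ≤ L + 1 := by
    refine h2.trans ?_
    rcases Nat.eq_zero_or_pos S.card with h0 | h0
    · rw [h0]; simp; linarith
    · have : Real.log S.card ≤ L := Real.log_le_log (by exact_mod_cast h0) hSN
      linarith
  have hsq : 0 < (N : ℝ) ^ (1 / 2 : ℝ) := by positivity
  refine ⟨PP, ?_, ?_, ?_, h3⟩
  · intro P hP
    obtain ⟨ha, hb, hc, hd⟩ := h1 P hP
    refine ⟨ha, hb, ?_, ?_⟩
    · have : (0 : ℝ) < (P.2.2 : ℝ) := by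
        have : 0 < (N : ℝ) ^ (1 / 2 : ℝ) / 64 := by positivity
        linarith
      exact_mod_cast this
    · refine hd.trans ?_
      have : L ^ K ≤ L ^ K0 := pow_le_pow_right₀ (by linarith) (le_max_left _ _)
      gcongr
  · -- the number of progressions
    have h4 : ∀ P ∈ PP, ((64 : ℝ) ^ (κ / 2) * (N : ℝ) ^ (κ / 4))⁻¹ ≤ w P := by
      intro P hP
      obtain ⟨_, _, hc, _⟩ := h1 P hP
      have h5 : (64 * (N : ℝ) ^ (1 / 2 : ℝ))⁻¹ ≤ (P.2.2 : ℝ) / N := by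
        have h6 : (N : ℝ) = (N : ℝ) ^ (1 / 2 : ℝ) * (N : ℝ) ^ (1 / 2 : ℝ) := by
          rw [← Real.rpow_add hN0]; norm_num
        rw [le_div_iff₀ hN0]
        calc (64 * (N : ℝ) ^ (1 / 2 : ℝ))⁻¹ * N
            = (64 * (N : ℝ) ^ (1 / 2 : ℝ))⁻¹ * ((N : ℝ) ^ (1 / 2 : ℝ) * (N : ℝ) ^ (1 / 2 : ℝ)) := by
              rw [← h6]
          _ = (N : ℝ) ^ (1 / 2 : ℝ) / 64 := by field_simp
          _ ≤ _ := hc
      have h7 : ((64 : ℝ) ^ (κ / 2) * (N : ℝ) ^ (κ / 4))⁻¹ = ((64 * (N : ℝ) ^ (1 / 2 : ℝ))⁻¹) ^ (κ / 2) := by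
        rw [Real.inv_rpow (by positivity), Real.mul_rpow (by norm_num) (by positivity),
          ← Real.rpow_mul hN0.le]
        congr 3
        ring
      rw [h7]
      exact Real.rpow_le_rpow (by positivity) h5 hκ2.le
    have h8 : (PP.card : ℝ) * ((64 : ℝ) ^ (κ / 2) * (N : ℝ) ^ (κ / 4))⁻¹ ≤ L + 1 := by
      calc (PP.card : ℝ) * ((64 : ℝ) ^ (κ / 2) * (N : ℝ) ^ (κ / 4))⁻¹
          = ∑ P ∈ PP, ((64 : ℝ) ^ (κ / 2) * (N : ℝ) ^ (κ / 4))⁻¹ := by
            rw [sum_const, nsmul_eq_mul]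
        _ ≤ ∑ P ∈ PP, w P := sum_le_sum h4
        _ ≤ L + 1 := h2'
    have hpos : 0 < (64 : ℝ) ^ (κ / 2) * (N : ℝ) ^ (κ / 4) := by positivity
    rw [mul_inv_le_iff₀ hpos] at h8
    linarith
  · -- the total weight
    have h4 : ∀ P ∈ PP, ((P.2.2 : ℝ) / N) ^ κ ≤ w P * (L ^ 2)⁻¹ := by
      intro P hP
      obtain ⟨_, _, _, hd⟩ := h1 P hP
      have h5 : ((P.2.2 : ℝ) / N) ^ κ = ((P.2.2 : ℝ) / N) ^ (κ / 2) * ((P.2.2 : ℝ) / N) ^ (κ / 2) := by
        rcases eq_or_lt_of_le (by positivity : (0 : ℝ) ≤ (P.2.2 : ℝ) / N) with h0 | h0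
        · rw [← h0, Real.zero_rpow hκ.ne', Real.zero_rpow hκ2.ne', zero_mul]
        · rw [← Real.rpow_add h0]
          congr 1; ring
      rw [h5]
      refine mul_le_mul_of_nonneg_left ?_ (hw P)
      have h6 : (P.2.2 : ℝ) / N ≤ (L ^ K0)⁻¹ := by
        rw [div_le_iff₀ hN0]
        calc (P.2.2 : ℝ) ≤ N / L ^ K0 := hd
          _ = (L ^ K0)⁻¹ * N := by ring
      calc ((P.2.2 : ℝ) / N) ^ (κ / 2) ≤ ((L ^ K0)⁻¹) ^ (κ / 2) :=
            Real.rpow_le_rpow (by positivity) h6 hκ2.le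
        _ = (L ^ ((K0 : ℝ) * (κ / 2)))⁻¹ := by
            rw [Real.inv_rpow (by positivity), ← Real.rpow_natCast L K0, ← Real.rpow_mul hL0.le]
        _ ≤ (L ^ (2 : ℝ))⁻¹ := by
            have h7 : (4 : ℝ) / κ ≤ K0 := by
              refine (Nat.le_ceil _).trans ?_
              exact_mod_cast le_max_right _ _
            have h8 : (2 : ℝ) ≤ (K0 : ℝ) * (κ / 2) := by
              rw [div_le_iff₀ hκ] at h7
              linarith
            have h9 : L ^ (2 : ℝ) ≤ L ^ ((K0 : ℝ) * (κ / 2)) :=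
              Real.rpow_le_rpow_of_exponent_le (by linarith) h8
            gcongr
        _ = (L ^ 2)⁻¹ := by norm_num
    calc ∑ P ∈ PP, ((P.2.2 : ℝ) / N) ^ κ ≤ ∑ P ∈ PP, w P * (L ^ 2)⁻¹ := sum_le_sum h4
      _ = (∑ P ∈ PP, w P) * (L ^ 2)⁻¹ := by rw [sum_mul]
      _ ≤ (L + 1) * (L ^ 2)⁻¹ := by gcongr
      _ ≤ 1 := by
          rw [mul_inv_le_iff₀ (by positivity)]
          nlinarith

end Pool.Agent.Lib.MP_e3f158_nt.TP
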