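import Pool.Agent.Lib.MP_e3f158_nt.TP.Greedy
import Pool.Agent.Lib.MP_dd84fd_nt.GX.MT

/-!
# MP_e3f158_nt, thin progressions: large values of `Ph` are covered by thin progressions (helper33)
-/

set_option autoImplicit false

namespace Pool.Agent.Lib.MP_e3f158_nt.TP

open Finset Filter Pool.MP_67663b_nt.Odd Pool.MP_dd84fd_nt.En Pool.MP_dd84fd_nt.E2
  Pool.MP_dd84fd_nt.LS Pool.MP_dd84fd_nt.GX

/-- the sign of a complex number: `‖sg z‖ ≤ 1`, `sg z * z = ‖z‖` -/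
noncomputable def sg (z : ℂ) : ℂ := (starRingEnd ℂ) z / (‖z‖ : ℂ)

theorem sg_norm (z : ℂ) : ‖sg z‖ ≤ 1 := by
  unfold sg
  rw [norm_div, RCLike.norm_conj, Complex.norm_real, norm_norm]
  exact div_self_le_one _

theorem sg_mul (z : ℂ) : sg z * z = (‖z‖ : ℂ) := by
  unfold sg
  by_cases hz : z = 0
  · rw [hz]; simp
  · have h : (‖z‖ : ℂ) ≠ 0 := by
      rw [Ne, Complex.ofReal_eq_zero, norm_eq_zero]
      exact hz
    rw [div_mul_eq_mul_div, div_eq_iff h, mul_comm, Complex.mul_conj, Complex.normSq_eq_norm_sq]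
    push_cast
    ring

open Classical in
theorem cover (A K : ℕ) (ε κ : ℝ) (hε : 0 < ε) (hκ : 0 < κ) : ∃ D0 : ℕ, ∀ D' : ℕ, D0 ≤ D' →
    ∃ X0 : ℕ, ∀ X : ℕ, X0 ≤ X → ∀ (G : ℕ) [NeZero G], 3 * X ≤ G →
    ∀ V : ZMod G → ℂ, VB G X V → ∀ S : Finset ℕ, S ⊆ Icc 1 X →
    (∀ n ∈ S, (X : ℝ) / (Real.log X) ^ A < ‖Ph G X (wX D' X) V (fun _ => 1) n‖) →
    ∃ PP : Finset (ℤ × ℕ × ℕ),
      (∀ p ∈ PP, 1 ≤ p.2.1 ∧ (p.2.1 : ℝ) ≤ Real.sqrt X ∧ Real.sqrt X / 32 ≤ (p.2.2 : ℝ) ∧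
        (p.2.2 : ℝ) ≤ X / (Real.log X) ^ K) ∧
      ∑ p ∈ PP, ((p.2.2 : ℝ) / X) ^ κ ≤ 1 / Real.log X ∧
      ((S.filter fun n => ∀ p ∈ PP, ¬ apm p n).card : ℝ) ≤ (X : ℝ) ^ (1 / 2 + ε) := by
  have hκ2 : (0 : ℝ) < κ / 2 := by positivity
  obtain ⟨K0, D0, hK0, h0⟩ := mtV A (max K ⌈6 / κ⌉₊) ε (κ / 2) hε hκ2
  refine ⟨D0, fun D' hD' => ?_⟩
  obtain ⟨X0, hX0⟩ := h0 D' hD'
  have hlog : ∀ᶠ N : ℕ in atTop, (2 : ℝ) ≤ Real.log N :=
    (Real.tendsto_log_atTop.comp tendsto_natCast_atTop_atTop).eventually_ge_atTop 2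
  obtain ⟨X1, hX1⟩ := eventually_atTop.1 hlog
  refine ⟨max X0 (max X1 1), fun X hX G hGz hG V hV S hS hbig => ?_⟩
  have hL2 : (2 : ℝ) ≤ Real.log X := hX1 X (((le_max_left _ _).trans (le_max_right _ _)).trans hX)
  have hXpos : 1 ≤ X := ((le_max_right _ _).trans (le_max_right _ _)).trans hX
  have hX' : (0 : ℝ) < X := by exact_mod_cast hXpos
  have hXge : (1 : ℝ) ≤ X := by exact_mod_cast hXpos
  set L : ℝ := Real.log X with hL
  have hL0 : 0 < L := by linarith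
  have hM : (1 : ℝ) ≤ (X : ℝ) ^ (1 / 2 + ε) := Real.one_le_rpow hXge (by positivity)
  let w : ℤ × ℕ × ℕ → ℝ := fun P => ((P.2.2 : ℝ) / X) ^ (κ / 2)
  have hw : ∀ P, 0 ≤ w P := fun P => by positivity
  obtain ⟨PP, h1, h2, h3⟩ := greedy apm w hw ((X : ℝ) ^ (1 / 2 + ε)) hM
    (fun p => 1 ≤ p.2.1 ∧ (p.2.1 : ℝ) ≤ Real.sqrt X ∧ Real.sqrt X / 32 ≤ (p.2.2 : ℝ) ∧
        (p.2.2 : ℝ) ≤ X / L ^ K0) S (by
    intro E hES hEM
    by_contra hcon
    push Not at hcon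
    have h4 := hX0 X ((le_max_left _ _).trans hX) G hG V hV E (hES.trans hS) hEM (by
      intro c q T hq1 hq2 _ hT1 hT2
      have h5 := hcon (c, q, T) ⟨hq1, hq2, hT1, hT2⟩
      have h6 : inAP E c q T = E.filter (apm (c, q, T)) := by
        unfold inAP
        ext n
        simp only [mem_filter]
        rfl
      rw [h6]
      exact h5)
      (fun n => sg (Ph G X (wX D' X) V (fun _ => 1) n)) (fun n => sg_norm _)
    have h5 : ∑ n ∈ E, sg (Ph G X (wX D' X) V (fun _ => 1) n) * Ph G X (wX D' X) V (fun _ => 1) n =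
        ((∑ n ∈ E, ‖Ph G X (wX D' X) V (fun _ => 1) n‖ : ℝ) : ℂ) := by
      push_cast
      exact sum_congr rfl fun n _ => sg_mul _
    rw [h5, Complex.norm_real, Real.norm_of_nonneg (sum_nonneg fun _ _ => norm_nonneg _)] at h4
    have hEne : E.Nonempty := by
      rw [nonempty_iff_ne_empty]
      rintro rfl
      rw [card_empty, Nat.cast_zero] at hEM
      linarith
    have h6 : ∑ n ∈ E, (X : ℝ) / L ^ A < ∑ n ∈ E, ‖Ph G X (wX D' X) V (fun _ => 1) n‖ :=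
      sum_lt_sum_of_nonempty hEne fun n hn => hbig n (hES hn)
    rw [sum_const, nsmul_eq_mul] at h6
    have h7 : (E.card : ℝ) * (X / L ^ A) = X * E.card / L ^ A := by ring
    linarith)
  have hSN : (S.card : ℝ) ≤ X := by
    have := card_le_card hS
    rw [Nat.card_Icc, Nat.add_sub_cancel] at this
    exact_mod_cast this
  have h2' : ∑ P ∈ PP, w P ≤ L + 1 := by
    refine h2.trans ?_
    rcases Nat.eq_zero_or_pos S.card with h0 | h0
    · rw [h0]; simp; linarith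
    · have : Real.log S.card ≤ L := Real.log_le_log (by exact_mod_cast h0) hSN
      linarith
  refine ⟨PP, ?_, ?_, h3.le⟩
  · intro P hP
    obtain ⟨ha, hb, hc, hd⟩ := h1 P hP
    refine ⟨ha, hb, hc, hd.trans ?_⟩
    have : L ^ K ≤ L ^ K0 := pow_le_pow_right₀ (by linarith) ((le_max_left _ _).trans hK0)
    gcongr
  · -- the total weight
    have h4 : ∀ P ∈ PP, ((P.2.2 : ℝ) / X) ^ κ ≤ w P * (L ^ 3)⁻¹ := by
      intro P hP
      obtain ⟨_, _, _, hd⟩ := h1 P hP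
      have h5 : ((P.2.2 : ℝ) / X) ^ κ = ((P.2.2 : ℝ) / X) ^ (κ / 2) * ((P.2.2 : ℝ) / X) ^ (κ / 2) := by
        rcases eq_or_lt_of_le (by positivity : (0 : ℝ) ≤ (P.2.2 : ℝ) / X) with h0 | h0
        · rw [← h0, Real.zero_rpow hκ.ne', Real.zero_rpow hκ2.ne', zero_mul]
        · rw [← Real.rpow_add h0]
          congr 1; ring
      rw [h5]
      refine mul_le_mul_of_nonneg_left ?_ (hw P)
      have h6 : (P.2.2 : ℝ) / X ≤ (L ^ K0)⁻¹ := by
        rw [div_le_iff₀ hX']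
        calc (P.2.2 : ℝ) ≤ X / L ^ K0 := hd
          _ = (L ^ K0)⁻¹ * X := by ring
      calc ((P.2.2 : ℝ) / X) ^ (κ / 2) ≤ ((L ^ K0)⁻¹) ^ (κ / 2) :=
            Real.rpow_le_rpow (by positivity) h6 hκ2.le
        _ = (L ^ ((K0 : ℝ) * (κ / 2)))⁻¹ := by
            rw [Real.inv_rpow (by positivity), ← Real.rpow_natCast L K0, ← Real.rpow_mul hL0.le]
        _ ≤ (L ^ (3 : ℝ))⁻¹ := by
            have h7 : (6 : ℝ) / κ ≤ K0 := by
              refine (Nat.le_ceil _).trans ?_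
              exact_mod_cast (le_max_right _ _).trans hK0
            have h8 : (3 : ℝ) ≤ (K0 : ℝ) * (κ / 2) := by
              rw [div_le_iff₀ hκ] at h7
              linarith
            have h9 : L ^ (3 : ℝ) ≤ L ^ ((K0 : ℝ) * (κ / 2)) :=
              Real.rpow_le_rpow_of_exponent_le (by linarith) h8
            gcongr
        _ = (L ^ 3)⁻¹ := by norm_num
    calc ∑ P ∈ PP, ((P.2.2 : ℝ) / X) ^ κ ≤ ∑ P ∈ PP, w P * (L ^ 3)⁻¹ := sum_le_sum h4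
      _ = (∑ P ∈ PP, w P) * (L ^ 3)⁻¹ := by rw [sum_mul]
      _ ≤ (L + 1) * (L ^ 3)⁻¹ := by gcongr
      _ ≤ 1 / L := by
          rw [mul_inv_le_iff₀ (by positivity)]
          have : 1 / L * L ^ 3 = L ^ 2 := by field_simp
          rw [this]
          nlinarith

end Pool.Agent.Lib.MP_e3f158_nt.TP
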