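import Pool.Agent.Lib.MP_dd84fd_nt.GX.Defs
import Pool.Agent.Lib.MP_dd84fd_nt.LS.Four

/-!
# MP_e3f158_nt, power saving local-global principle: the second factor is an arbitrary sequence

`vb_tr`: the transform of a sequence bounded by `1` satisfies the bounds `VB`.
`rep_tr`: the convolution of `ip - f2` with an arbitrary sequence.
-/

set_option autoImplicit false

namespace Pool.Agent.Lib.MP_e3f158_nt.TP

open Finset Pool.MP_67663b_nt.Odd Pool.MP_dd84fd_nt.En Pool.MP_dd84fd_nt.E2 Pool.MP_dd84fd_nt.LS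
open Pool.MP_dd84fd_nt.GX

theorem vb_tr : ∃ X0 : ℕ, ∀ X : ℕ, X0 ≤ X → ∀ (G : ℕ) [NeZero G], 3 * X ≤ G →
    ∀ b : ℕ → ℝ, (∀ n, |b n| ≤ 1) → VB G X (tr G X b) := by
  refine ⟨3, fun X hX G hGz hG b hb => ?_⟩
  have hXG : X < G := by omega
  have hL : 1 ≤ Real.log (X : ℝ) := by
    rw [Real.le_log_iff_exp_le (by exact_mod_cast (by omega : 0 < X))]
    have h1 := Real.exp_one_lt_d9
    have h2 : (3 : ℝ) ≤ X := by exact_mod_cast hX
    linarith
  unfold VB
  set L : ℝ := Real.log (X : ℝ) with hLdef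
  have hX0 : (0 : ℝ) ≤ X := Nat.cast_nonneg X
  constructor
  · unfold nm2
    rw [parseval G X hXG]
    have h1 : ∑ n ∈ Icc 1 X, b n ^ 2 ≤ ∑ _n ∈ Icc 1 X, (1 : ℝ) := by
      refine Finset.sum_le_sum fun n _ => ?_
      rw [← sq_abs]
      exact pow_le_one₀ (abs_nonneg _) (hb n)
    rw [Finset.sum_const, Nat.card_Icc, nsmul_eq_mul, Nat.add_sub_cancel, mul_one] at h1
    have h2 : (1 : ℝ) ≤ L ^ 2 := one_le_pow₀ hL
    nlinarith [mul_le_mul_of_nonneg_left h2 hX0]
  · intro j
    unfold tr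
    refine (norm_sum_le _ _).trans ?_
    have h1 : ∑ n ∈ Icc 1 X, ‖(b n : ℂ) * ZMod.stdAddChar ((n : ZMod G) * j)‖ ≤
        ∑ _n ∈ Icc 1 X, (1 : ℝ) := by
      refine Finset.sum_le_sum fun n _ => ?_
      rw [norm_mul, AddChar.norm_apply, mul_one, Complex.norm_real]
      exact hb n
    rw [Finset.sum_const, Nat.card_Icc, nsmul_eq_mul, Nat.add_sub_cancel, mul_one] at h1
    refine h1.trans ?_
    nlinarith [mul_le_mul_of_nonneg_left hL hX0]

/-- the Fourier coefficient of a product of two transforms -/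
theorem co_mul (N : ℕ) [NeZero N] (Y : ℕ) (hY : 2 * Y < N) (u v : ℕ → ℝ) (n : ℕ) (hn : n ≤ Y) :
    co N (fun j => tr N Y u j * tr N Y v j) n =
      ((∑ a ∈ Icc 1 (n - 1), u a * v (n - a) : ℝ) : ℂ) := by
  have hN : (N : ℂ) ≠ 0 := by exact_mod_cast NeZero.ne N
  unfold co
  have h1 : ∀ j ∈ (univ : Finset (ZMod N)),
      tr N Y u j * tr N Y v j * ZMod.stdAddChar (-((n : ZMod N) * j)) =
      ∑ a ∈ Icc 1 Y, ∑ b ∈ Icc 1 Y, ((u a * v b : ℝ) : ℂ) *
        ZMod.stdAddChar (((a : ZMod N) + (b : ZMod N) - (n : ZMod N)) * j) := by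
    intro j _
    unfold tr
    rw [Finset.sum_mul_sum, Finset.sum_mul]
    refine Finset.sum_congr rfl (fun a _ => ?_)
    rw [Finset.sum_mul]
    refine Finset.sum_congr rfl (fun b _ => ?_)
    have : ((a : ZMod N) + (b : ZMod N) - (n : ZMod N)) * j =
      (a : ZMod N) * j + (b : ZMod N) * j + (-((n : ZMod N) * j)) := by ring
    rw [this, AddChar.map_add_eq_mul, AddChar.map_add_eq_mul]
    push_cast
    ring
  rw [Finset.sum_congr rfl h1, Finset.sum_comm]
  have h2 : ∀ a ∈ Icc 1 Y, ∑ j : ZMod N, ∑ b ∈ Icc 1 Y, ((u a * v b : ℝ) : ℂ) *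
        ZMod.stdAddChar (((a : ZMod N) + (b : ZMod N) - (n : ZMod N)) * j) =
      if a ≤ n - 1 then (N : ℂ) * ((u a * v (n - a) : ℝ) : ℂ) else 0 := by
    intro a ha
    rw [Finset.mem_Icc] at ha
    rw [Finset.sum_comm]
    by_cases han : a ≤ n - 1
    · rw [if_pos han]
      rw [Finset.sum_eq_single (n - a)]
      · rw [← Finset.mul_sum, sum_chi, if_pos]
        · ring
        · rw [Nat.cast_sub (by omega)]
          ring
      · intro b hb hne
        rw [Finset.mem_Icc] at hb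
        rw [← Finset.mul_sum, sum_chi, if_neg, mul_zero]
        intro h0
        apply hne
        have : ((a + b : ℕ) : ZMod N) = ((n : ℕ) : ZMod N) := by
          push_cast
          exact sub_eq_zero.1 h0
        have := cast_eq_small (by omega) (by omega) this
        omega
      · intro h
        exfalso
        apply h
        rw [Finset.mem_Icc]
        omega
    · rw [if_neg han]
      apply Finset.sum_eq_zero
      intro b hb
      rw [Finset.mem_Icc] at hb
      rw [← Finset.mul_sum, sum_chi, if_neg, mul_zero]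
      intro h0
      have : ((a + b : ℕ) : ZMod N) = ((n : ℕ) : ZMod N) := by
        push_cast
        exact sub_eq_zero.1 h0
      have := cast_eq_small (by omega) (by omega) this
      omega
  rw [Finset.sum_congr rfl h2, ← Finset.sum_filter]
  have h3 : (Icc 1 Y).filter (fun a => a ≤ n - 1) = Icc 1 (n - 1) := by
    ext a
    simp only [Finset.mem_filter, Finset.mem_Icc]
    omega
  rw [h3, ← Finset.mul_sum, ← mul_assoc, one_div, inv_mul_cancel₀ hN, one_mul, Complex.ofReal_sum]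

theorem rep_tr (X G w : ℕ) [NeZero G] (hG : 3 * X ≤ G) (b : ℕ → ℝ) (n : ℕ) (h1 : 1 ≤ n)
    (hn : n ≤ X) : Ph G X w (tr G X b) (fun _ => 1) n =
      ((∑ r ∈ Icc 1 (n - 1), b r * (ip (n - r) - f2 w (n - r)) : ℝ) : ℂ) := by
  have hX : 2 * X < G := by omega
  have h2 := co_mul G X hX b (fun m => ip m - f2 w m) n hn
  rw [← h2]
  unfold Ph co UU
  congr 1
  refine Finset.sum_congr rfl fun j _ => ?_
  ring

end Pool.Agent.Lib.MP_e3f158_nt.TP
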