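import Pool.Agent.Lib.MP_e3f158_nt.TP.Conv
import Pool.Agent.Lib.MP_e3f158_nt.G.LG
import Pool.Agent.Lib.MP_dd84fd_nt.LS.Point

/-!
# MP_e3f158_nt, power saving: even integers without a representation of type `(0,0)`

If `n` is even and not a sum of two different primes then `g n ≤ 1`, but the model convolution is
`≥ c n / (log n)²` (`LS.point_close`, `SS n ≥ 2 C2`), so the Fourier coefficient is large.
-/

set_option autoImplicit false

namespace Pool.Agent.Lib.MP_e3f158_nt.TP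

open Finset Pool.MP_67663b_nt.Odd Pool.MP_dd84fd_nt.En Pool.MP_dd84fd_nt.E2 Pool.MP_dd84fd_nt.LS
open Pool.MP_dd84fd_nt.GX Pool.Agent.Lib.MP_e3f158_nt

private theorem ev_g_le {n : ℕ} (h : ¬ HasRep 0 0 n) : Pool.MP_dd84fd_nt.En.g n ≤ 1 := by
  unfold Pool.MP_dd84fd_nt.En.g
  rw [card_le_one]
  have key : ∀ p ∈ (range (n + 1)).filter (fun p => Nat.Prime p ∧ Nat.Prime (n - p)),
      2 * p = n := by
    intro p hp
    rw [mem_filter, mem_range] at hp
    obtain ⟨hpn, h1, h2⟩ := hp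
    obtain ⟨x, hx, hxp⟩ := G.LG_prime h1
    obtain ⟨y, hy, hyp⟩ := G.LG_prime h2
    by_contra hne
    apply h
    refine ⟨x, y, hx, hy, ?_, ?_⟩
    · rw [hxp, hyp]; omega
    · rw [hxp, hyp]; omega
  intro p hp p' hp'
  have h1 := key p hp
  have h2 := key p' hp'
  omega

private theorem ev_flip (n : ℕ) (u v : ℕ → ℝ) :
    ∑ a ∈ Icc 1 (n - 1), u a * v (n - a) = ∑ a ∈ Icc 1 (n - 1), v a * u (n - a) := by
  refine Finset.sum_nbij' (fun a => n - a) (fun a => n - a) ?_ ?_ ?_ ?_ ?_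
  · intro a ha
    rw [mem_Icc] at ha ⊢
    omega
  · intro a ha
    rw [mem_Icc] at ha ⊢
    omega
  · intro a ha
    rw [mem_Icc] at ha
    omega
  · intro a ha
    rw [mem_Icc] at ha
    omega
  · intro a ha
    rw [mem_Icc] at ha
    have h1 : n - (n - a) = a := by omega
    rw [h1]
    ring

private theorem ev_g_eq (n : ℕ) :
    (Pool.MP_dd84fd_nt.En.g n : ℝ) = ∑ a ∈ Icc 1 (n - 1), ip a * ip (n - a) := by
  unfold Pool.MP_dd84fd_nt.En.g
  rw [Finset.card_eq_sum_ones, Nat.cast_sum, Finset.sum_filter]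
  have h1 : ∀ a ∈ range (n + 1), (if (Nat.Prime a ∧ Nat.Prime (n - a)) then ((1 : ℕ) : ℝ) else 0) =
      ip a * ip (n - a) := by
    intro a _
    unfold ip
    by_cases h2 : Nat.Prime a <;> by_cases h3 : Nat.Prime (n - a) <;> simp [h2, h3]
  rw [Finset.sum_congr rfl h1]
  symm
  refine Finset.sum_subset (fun a ha => ?_) (fun a ha hn => ?_)
  · rw [Finset.mem_Icc] at ha
    rw [Finset.mem_range]
    omega
  · rw [Finset.mem_range] at ha
    rw [Finset.mem_Icc] at hn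
    have h0 : ip 0 = 0 := by
      unfold ip
      rw [if_neg Nat.not_prime_zero]
    have h4 : a = 0 ∨ n - a = 0 := by omega
    rcases h4 with h4 | h4
    · rw [h4, h0, zero_mul]
    · rw [h4, h0, mul_zero]

private theorem ev_rep (X G w : ℕ) [NeZero G] (hG : 3 * X ≤ G) (n : ℕ) (h1 : 1 ≤ n) (hn : n ≤ X) :
    Ph G X w (VV G X w) (fun _ => 1) n =
      (((Pool.MP_dd84fd_nt.En.g n : ℝ) - conv2 w n : ℝ) : ℂ) := by
  have h2 : Ph G X w (VV G X w) (fun _ => 1) n =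
      Ph G X w (tr G X (fun m => ip m + f2 w m)) (fun _ => 1) n := rfl
  rw [h2, rep_tr X G w hG _ n h1 hn, ev_g_eq]
  congr 1
  have h3 : ∑ r ∈ Icc 1 (n - 1), (ip r + f2 w r) * (ip (n - r) - f2 w (n - r)) =
      (∑ r ∈ Icc 1 (n - 1), ip r * ip (n - r) - ∑ r ∈ Icc 1 (n - 1), f2 w r * f2 w (n - r)) +
      (∑ r ∈ Icc 1 (n - 1), f2 w r * ip (n - r) - ∑ r ∈ Icc 1 (n - 1), ip r * f2 w (n - r)) := by
    rw [← sum_sub_distrib, ← sum_sub_distrib, ← sum_add_distrib]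
    exact sum_congr rfl fun r _ => by ring
  rw [h3, ev_flip n (f2 w) ip, sub_self, add_zero]
  rfl

private theorem ev_JJ (n X : ℕ) (hn : 4 ≤ n) (hnX : n ≤ X) :
    ((n : ℝ) - 3) / (Real.log X) ^ 2 ≤ JJ n := by
  unfold JJ
  have h1 : ∀ m ∈ Icc 2 (n - 2), 1 / (Real.log X) ^ 2 ≤
      1 / (Real.log (m : ℝ) * Real.log ((n - m : ℕ) : ℝ)) := by
    intro m hm
    rw [mem_Icc] at hm
    have h2 : (2 : ℝ) ≤ m := by exact_mod_cast hm.1
    have h3 : (2 : ℝ) ≤ ((n - m : ℕ) : ℝ) := by exact_mod_cast (by omega : 2 ≤ n - m)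
    have h4 : (m : ℝ) ≤ X := by exact_mod_cast (by omega : m ≤ X)
    have h5 : ((n - m : ℕ) : ℝ) ≤ X := by exact_mod_cast (by omega : n - m ≤ X)
    have h6 : 0 < Real.log m := Real.log_pos (by linarith)
    have h7 : 0 < Real.log ((n - m : ℕ) : ℝ) := Real.log_pos (by linarith)
    have h8 : Real.log m ≤ Real.log X := Real.log_le_log (by linarith) h4
    have h9 : Real.log ((n - m : ℕ) : ℝ) ≤ Real.log X := Real.log_le_log (by linarith) h5
    rw [pow_two]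
    gcongr
  have h2 := card_nsmul_le_sum (Icc 2 (n - 2)) _ _ h1
  rw [Nat.card_Icc, nsmul_eq_mul] at h2
  refine le_trans (le_of_eq ?_) h2
  have h3 : ((n - 2 + 1 - 2 : ℕ) : ℝ) = (n : ℝ) - 3 := by
    have : n - 2 + 1 - 2 = n - 3 := by omega
    rw [this, Nat.cast_sub (by omega)]
    norm_num
  rw [h3]
  ring

theorem even_big : ∃ D1 : ℕ, ∀ D' : ℕ, D1 ≤ D' → ∃ X0 : ℕ, ∀ X : ℕ, X0 ≤ X →
    ∀ (G : ℕ) [NeZero G], 3 * X ≤ G → ∀ n : ℕ, X ≤ 3 * n → n ≤ X → Even n → ¬ HasRep 0 0 n →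
    (X : ℝ) / (Real.log X) ^ 3 <
      ‖Ph G X (wX D' X) (VV G X (wX D' X)) (fun _ => 1) n‖ := by
  refine ⟨8, fun D' hD => ?_⟩
  obtain ⟨X1, hX1⟩ := point_close 3 D' (by omega)
  have hlog : ∀ᶠ N : ℕ in Filter.atTop, max 1 (5 / C2) ≤ Real.log N :=
    (Real.tendsto_log_atTop.comp tendsto_natCast_atTop_atTop).eventually_ge_atTop _
  have hpow : ∀ᶠ N : ℕ in Filter.atTop, 2 * (Real.log N) ^ 3 ≤ (N : ℝ) := by
    have h1 : (fun x : ℝ => (Real.log x) ^ 3) =o[Filter.atTop] (fun x : ℝ => x) :=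
      Real.isLittleO_pow_log_id_atTop
    have h2 := h1.bound (c := 1 / 2) (by norm_num)
    have h3 := tendsto_natCast_atTop_atTop.eventually h2
    filter_upwards [h3, Filter.eventually_ge_atTop 1] with N hN hN1
    have hN0 : (1 : ℝ) ≤ N := by exact_mod_cast hN1
    have hl : 0 ≤ Real.log N := Real.log_nonneg hN0
    rw [Real.norm_of_nonneg (by positivity), Real.norm_of_nonneg (by positivity)] at hN
    linarith
  obtain ⟨X2, hX2⟩ := Filter.eventually_atTop.1 (hlog.and hpow)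
  refine ⟨max (max X1 X2) 36, fun X hX G hGz hG n hn3 hnX hev hrep => ?_⟩
  have hXX1 : X1 ≤ X := (le_max_left _ _).trans ((le_max_left _ _).trans hX)
  obtain ⟨hL, hP⟩ := hX2 X ((le_max_right _ _).trans ((le_max_left _ _).trans hX))
  have h36 : 36 ≤ X := (le_max_right _ _).trans hX
  have h36' : (36 : ℝ) ≤ X := by exact_mod_cast h36
  rw [ev_rep X G _ hG n (by omega) hnX, Complex.norm_real]
  have hg : (Pool.MP_dd84fd_nt.En.g n : ℝ) ≤ 1 := by exact_mod_cast ev_g_le hrep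
  have hc := hX1 X hXX1 n hev (by omega) hnX
  have hJ := ev_JJ n X (by omega) hnX
  have hS := SS_ge n
  have hC := C2_pos
  set L : ℝ := Real.log X with hLdef
  set w := wX D' X
  have hL1 : 1 ≤ L := (le_max_left _ _).trans hL
  have hL2 : 5 / C2 ≤ L := (le_max_right _ _).trans hL
  have hL0 : 0 < L := by linarith
  rw [div_le_iff₀ hC] at hL2
  have hX0 : (0 : ℝ) < X := by linarith
  have hn3' : (X : ℝ) ≤ 3 * n := by exact_mod_cast hn3
  have hJ2 : (X : ℝ) / (4 * L ^ 2) ≤ JJ n := by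
    refine le_trans ?_ hJ
    rw [div_le_div_iff₀ (by positivity) (by positivity)]
    have h1 : (X : ℝ) ≤ 4 * ((n : ℝ) - 3) := by linarith
    nlinarith [mul_le_mul_of_nonneg_right h1 (by positivity : 0 ≤ L ^ 2)]
  have hJ0 : 0 ≤ JJ n := le_trans (by positivity) hJ2
  have h1 : 2 * C2 * ((X : ℝ) / (4 * L ^ 2)) ≤ SS n * JJ n :=
    mul_le_mul hS hJ2 (by positivity) (by linarith)
  have h2 : 5 / 2 * ((X : ℝ) / L ^ 3) ≤ 2 * C2 * ((X : ℝ) / (4 * L ^ 2)) := by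
    have e1 : 5 / 2 * ((X : ℝ) / L ^ 3) = (5 * X) / (2 * L ^ 3) := by
      field_simp
    have e2 : 2 * C2 * ((X : ℝ) / (4 * L ^ 2)) = (C2 * L * X) / (2 * L ^ 3) := by
      field_simp
      ring
    rw [e1, e2]
    apply div_le_div_of_nonneg_right _ (by positivity)
    nlinarith
  have h3 : (1 : ℝ) ≤ 1 / 2 * ((X : ℝ) / L ^ 3) := by
    rw [mul_div_assoc', le_div_iff₀ (by positivity)]
    linarith
  have h4 := abs_le.1 hc
  have h5 : (X : ℝ) / (4 * L ^ 3) = 1 / 4 * ((X : ℝ) / L ^ 3) := by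
    field_simp
  rw [h5] at h4
  have hXL : 0 < (X : ℝ) / L ^ 3 := by positivity
  have h6 : (X : ℝ) / L ^ 3 < conv2 w n - (Pool.MP_dd84fd_nt.En.g n : ℝ) := by
    linarith [h4.1]
  calc (X : ℝ) / L ^ 3 < conv2 w n - (Pool.MP_dd84fd_nt.En.g n : ℝ) := h6
    _ ≤ |conv2 w n - (Pool.MP_dd84fd_nt.En.g n : ℝ)| := le_abs_self _
    _ = ‖(Pool.MP_dd84fd_nt.En.g n : ℝ) - conv2 w n‖ := by
        rw [Real.norm_eq_abs, abs_sub_comm]

end Pool.Agent.Lib.MP_e3f158_nt.TP
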