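import Pool.Agent.Lib.MP_e3f158_nt.G.Gaps

/-!
# MP_e3f158_nt, thin progressions: EVERY short window contains an even integer with many good `a`-primes
(helper33)
-/

set_option autoImplicit false

namespace Pool.Agent.Lib.MP_e3f158_nt.TP

open Finset Filter Pool.MP_dd84fd_nt.E2 Pool.Agent.Lib.MP_e3f158_nt Pool.Agent.Lib.MP_e3f158_nt.G

open Classical in
theorem few_bad (a z x N H : ℕ) (hx : x ≤ N) :
    (((aP a x).filter fun r => r < x ∧
        ∀ h ∈ Icc 1 H, ¬ Nat.Coprime ((x - r) + h) (primorial z)).card : ℝ) ≤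
      (((range (N + 1)).filter fun m => ∀ h ∈ Icc 1 H,
      ¬ Nat.Coprime (m + h) (primorial z)).card : ℝ) := by
  norm_cast
  refine card_le_card_of_injOn (fun r => x - r) ?_ ?_
  · intro r hr
    rw [mem_coe, mem_filter] at hr
    rw [mem_coe, mem_filter, mem_range]
    exact ⟨by show x - r < N + 1; omega, hr.2.2⟩
  · intro r hr r' hr' h
    rw [mem_coe, mem_filter] at hr hr'
    have h1 := hr.2.1
    have h2 := hr'.2.1
    have h3 : x - r = x - r' := h
    omega

open Classical in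
/-- There is an absolute `K` such that for all large `X` EVERY window `(x, x + (log log X)^K]` with
`X/4 ≤ x`, contained in `[1, X]`, contains an even `n` with at least `X/(log X)^(a+4)` good
`a`-primes. -/
theorem every_good : ∃ K : ℕ, ∀ a D : ℕ, 1 ≤ D → ∀ᶠ X : ℕ in atTop, ∀ x : ℕ, X ≤ 4 * x →
    x + ⌊(Real.log (Real.log X)) ^ K⌋₊ ≤ X →
    ∃ n ∈ Ioc x (x + ⌊(Real.log (Real.log X)) ^ K⌋₊), Even n ∧
      (X : ℝ) / (Real.log X) ^ (a + 4) ≤ ((good a (wX D X) n).card : ℝ) := by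
  obtain ⟨K, hK⟩ := rough_gap
  refine ⟨K, fun a D hD => ?_⟩
  have h1 := hK (a + 4) D hD
  obtain ⟨n1, hn1⟩ := eventually_atTop.1 (pic_ge (a + 1))
  have hlog : Tendsto (fun N : ℕ => Real.log (N : ℝ)) atTop atTop :=
    Real.tendsto_log_atTop.comp tendsto_natCast_atTop_atTop
  have hlogpow : ∀ (k : ℕ) (c : ℝ), 0 < c → ∀ᶠ x : ℝ in atTop, (Real.log x) ^ k ≤ c * x := by
    intro k c hc
    have h1 : (fun x : ℝ => (Real.log x) ^ k) =o[atTop] (fun x : ℝ => x) :=
      Real.isLittleO_pow_log_id_atTop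
    filter_upwards [h1.bound hc, eventually_ge_atTop 1] with x hx hx1
    have hl : 0 ≤ Real.log x := Real.log_nonneg hx1
    rw [Real.norm_of_nonneg (by positivity), Real.norm_of_nonneg (by linarith)] at hx
    exact hx
  have e1 := hlog.eventually (hlogpow K 1 one_pos)
  have e2 := tendsto_natCast_atTop_atTop.eventually (hlogpow (a + 4) (1 / 2) (by norm_num))
  have e3 := hlog.eventually_ge_atTop ((2 : ℝ) ^ (a + 6))
  have e4 : ∀ᶠ X : ℕ in atTop, 4 * max n1 2 ≤ X := eventually_ge_atTop _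
  filter_upwards [h1, e1, e2, e3, e4] with X g1 g2 g3 g4 g5
  intro x hx hxH
  set H := ⌊(Real.log (Real.log X)) ^ K⌋₊ with hH
  set ℓ : ℝ := Real.log X with hℓ
  set z := wX D X with hz
  have hp6 : (64 : ℝ) ≤ 2 ^ (a + 6) := by
    calc (64 : ℝ) = 2 ^ 6 := by norm_num
      _ ≤ 2 ^ (a + 6) := pow_le_pow_right₀ (by norm_num) (by omega)
  have hℓ64 : 64 ≤ ℓ := le_trans hp6 g4
  have hℓ0 : 0 < ℓ := by linarith
  have hz2 : 2 ≤ z := by
    rw [hz]; unfold wX
    refine Nat.le_floor ?_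
    push_cast
    calc (2 : ℝ) ≤ ℓ := by linarith
      _ = ℓ ^ 1 := (pow_one _).symm
      _ ≤ _ := pow_le_pow_right₀ (by linarith) hD
  have hHℓ : (H : ℝ) ≤ ℓ := by
    refine (Nat.floor_le ?_).trans ?_
    · have : 0 ≤ Real.log ℓ := Real.log_nonneg (by linarith)
      positivity
    · linarith
  have hX0 : (0 : ℝ) < X := by
    have : 0 < X := by omega
    exact_mod_cast this
  by_contra hcon
  push Not at hcon
  have hstep := gaps_step a z x H ((X : ℝ) / ℓ ^ (a + 4)) (by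
    intro n hn
    by_cases hev : Even n
    · exact hcon n hn hev
    · have h7 := good_odd (a := a) hz2 hev
      have h8 : ((good a z n).card : ℝ) ≤ 1 := by exact_mod_cast h7
      refine lt_of_le_of_lt h8 ?_
      rw [lt_div_iff₀ (by positivity), one_mul]
      have : 0 < (X : ℝ) := hX0
      linarith)
  have h2 := few_bad a z x X H (by omega)
  have h3 := hstep.trans (h2.trans g1)
  -- lower bound for the number of a-primes
  have hxn : max n1 2 ≤ x := by omega
  have h5 := hn1 x ((le_max_left _ _).trans hxn)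
  have hx2 : (2 : ℝ) ≤ x := by
    have : 2 ≤ x := (le_max_right _ _).trans hxn
    exact_mod_cast this
  have hlx : 0 < Real.log x := Real.log_pos (by linarith)
  have hxX : (x : ℝ) ≤ X := by
    have : x ≤ X := by omega
    exact_mod_cast this
  have hlxN : Real.log x ≤ ℓ := Real.log_le_log (by linarith) hxX
  have hx4 : (X : ℝ) / 4 ≤ x := by
    have : (X : ℝ) ≤ 4 * x := by exact_mod_cast hx
    linarith
  have h6 : (X : ℝ) / 4 / (2 * ℓ) ^ (a + 1) ≤ pic (a + 1) x := by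
    refine le_trans ?_ h5
    gcongr
  have h7 : (X : ℝ) / 4 / (2 * ℓ) ^ (a + 1) = (X : ℝ) / ℓ ^ (a + 4) * (ℓ ^ 3 / 2 ^ (a + 3)) := by
    rw [mul_pow]
    have e1 : ℓ ^ (a + 4) = ℓ ^ (a + 1) * ℓ ^ 3 := by ring
    have e2 : (2 : ℝ) ^ (a + 3) = 4 * 2 ^ (a + 1) := by ring
    rw [e1, e2]
    field_simp
  have h8 : 1 ≤ (X : ℝ) / ℓ ^ (a + 4) := by
    rw [le_div_iff₀ (by positivity), one_mul]
    linarith
  set Y : ℝ := (X : ℝ) / ℓ ^ (a + 4) with hY
  have h9 : 2 * ℓ ^ 2 ≤ ℓ ^ 3 / 2 ^ (a + 3) := by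
    rw [le_div_iff₀ (by positivity)]
    have e3 : (2 : ℝ) ^ (a + 6) = 8 * 2 ^ (a + 3) := by ring
    have e4 : 2 * 2 ^ (a + 3) ≤ ℓ := by
      have : (0 : ℝ) < 2 ^ (a + 3) := by positivity
      linarith
    nlinarith [sq_nonneg ℓ]
  have h10 : Y * (2 * ℓ ^ 2) ≤ 1 + ℓ * Y + Y := by
    have h11 : Y * (2 * ℓ ^ 2) ≤ pic (a + 1) x := by
      refine le_trans ?_ h6
      rw [h7]
      gcongr
    have h12 : (H : ℝ) * Y ≤ ℓ * Y := by gcongr
    linarith
  have hY1 : 0 < Y := by linarith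
  nlinarith [mul_pos hY1 hℓ0]

end Pool.Agent.Lib.MP_e3f158_nt.TP
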