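import Pool.Agent.Lib.MP_e3f158_nt.TP.Cover
import Pool.Agent.Lib.MP_e3f158_nt.TP.Conv
import Pool.Agent.Lib.MP_e3f158_nt.G.LG

/-!
# MP_e3f158_nt, thin progressions: sums of a prime and an element of an arbitrary set (helper33)
-/

set_option autoImplicit false

namespace Pool.Agent.Lib.MP_e3f158_nt.TP

open Finset Filter Pool.MP_67663b_nt.Odd Pool.MP_dd84fd_nt.En Pool.MP_dd84fd_nt.E2
  Pool.MP_dd84fd_nt.LS Pool.MP_dd84fd_nt.GX Pool.Agent.Lib.MP_e3f158_nt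
  Pool.Agent.Lib.MP_e3f158_nt.G Pool.Agent.Lib.MP_e3f158_nt.U

open Classical in
theorem conv_ind (w n : ℕ) (R : Finset ℕ) (hR : ∀ r ∈ R, 1 ≤ r) :
    ∑ r ∈ Icc 1 (n - 1), (if r ∈ R then (1 : ℝ) else 0) * (ip (n - r) - f2 w (n - r)) =
      RA R n - Rz w R n := by
  unfold RA Rz
  rw [← sum_sub_distrib]
  have h1 : R.filter (fun r => r < n) = (Icc 1 (n - 1)).filter (fun r => r ∈ R) := by
    ext r
    rw [mem_filter, mem_filter, mem_Icc]
    constructor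
    · rintro ⟨ha, hb⟩
      exact ⟨⟨hR r ha, by omega⟩, ha⟩
    · rintro ⟨⟨ha, hb⟩, hc⟩
      exact ⟨hc, by omega⟩
  rw [h1, sum_filter]
  refine sum_congr rfl fun r _ => ?_
  by_cases hr : r ∈ R
  · rw [if_pos hr, if_pos hr, one_mul]
    rfl
  · rw [if_neg hr, if_neg hr, zero_mul]

open Classical in
/-- For an ARBITRARY set `R ⊆ [1, X]`: outside few thin progressions and outside a set of at most
`X^(1/2+ε)` elements, the number of representations `n = r + prime`, `r ∈ R`, is as predicted by the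
model, up to `X/(log X)^A`. -/
theorem cover_set (A K : ℕ) (ε κ : ℝ) (hε : 0 < ε) (hκ : 0 < κ) : ∃ D0 : ℕ, ∀ D' : ℕ, D0 ≤ D' →
    ∃ X0 : ℕ, ∀ X : ℕ, X0 ≤ X → ∀ R : Finset ℕ, R ⊆ Icc 1 X →
    ∃ PP : Finset (ℤ × ℕ × ℕ),
      (∀ p ∈ PP, 1 ≤ p.2.1 ∧ (p.2.1 : ℝ) ≤ Real.sqrt X ∧ Real.sqrt X / 32 ≤ (p.2.2 : ℝ) ∧
        (p.2.2 : ℝ) ≤ X / (Real.log X) ^ K) ∧
      ∑ p ∈ PP, ((p.2.2 : ℝ) / X) ^ κ ≤ 1 / Real.log X ∧
      ((((Icc 1 X).filter fun n => (X : ℝ) / (Real.log X) ^ A <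
        |RA R n - Rz (wX D' X) R n|).filter fun n => ∀ p ∈ PP, ¬ apm p n).card : ℝ) ≤
        (X : ℝ) ^ (1 / 2 + ε) := by
  obtain ⟨D0, h0⟩ := cover A K ε κ hε hκ
  obtain ⟨X1, h1⟩ := vb_tr
  refine ⟨D0, fun D' hD' => ?_⟩
  obtain ⟨X0, hX0⟩ := h0 D' hD'
  refine ⟨max 1 (max X0 X1), fun X hX R hR => ?_⟩
  have hX1 : 1 ≤ X := (le_max_left _ _).trans hX
  have hXa : X0 ≤ X := ((le_max_left _ _).trans (le_max_right _ _)).trans hX
  have hXb : X1 ≤ X := ((le_max_right _ _).trans (le_max_right _ _)).trans hX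
  have : NeZero (3 * X) := ⟨by omega⟩
  let b : ℕ → ℝ := fun r => if r ∈ R then (1 : ℝ) else 0
  have hb : ∀ n, |b n| ≤ 1 := by
    intro n
    show |if n ∈ R then (1 : ℝ) else 0| ≤ 1
    split_ifs <;> simp
  refine hX0 X hXa (3 * X) le_rfl (tr (3 * X) X b) (h1 X hXb (3 * X) le_rfl b hb) _
    (filter_subset _ _) ?_
  intro n hn
  rw [mem_filter, mem_Icc] at hn
  rw [rep_tr X (3 * X) (wX D' X) le_rfl b n hn.1.1 hn.1.2, Complex.norm_real, Real.norm_eq_abs,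
    conv_ind (wX D' X) n R (fun r hr => (mem_Icc.1 (hR hr)).1)]
  exact hn.2

open Classical in
/-- the a-primes up to `X` -/
noncomputable def SX (a X : ℕ) : Finset ℕ := (Icc 1 X).filter fun r => ∃ x : ℕ, 1 ≤ x ∧ ipr a x = r

theorem exc_big (B : ℕ) : ∀ᶠ X : ℕ in atTop, ∀ a z n : ℕ, n ≤ X → ¬ HasRep a 0 n →
    (X : ℝ) / (Real.log X) ^ B ≤ ((good a z n).card : ℝ) →
    (X : ℝ) / (Real.log X) ^ (B + 2) < |RA (SX a X) n - Rz z (SX a X) n| := by
  have hlog : ∀ᶠ N : ℕ in atTop, (4 : ℝ) ≤ Real.log N :=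
    (Real.tendsto_log_atTop.comp tendsto_natCast_atTop_atTop).eventually_ge_atTop 4
  have hpow : ∀ᶠ N : ℕ in atTop, 2 * (Real.log N) ^ (B + 1) ≤ (N : ℝ) := by
    have h1 : (fun x : ℝ => (Real.log x) ^ (B + 1)) =o[atTop] (fun x : ℝ => x) :=
      Real.isLittleO_pow_log_id_atTop
    have h2 := h1.bound (c := 1 / 2) (by norm_num)
    have h3 := tendsto_natCast_atTop_atTop.eventually h2
    filter_upwards [h3, eventually_ge_atTop 1] with N hN hN1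
    have hN0 : (1 : ℝ) ≤ N := by exact_mod_cast hN1
    have hl : 0 ≤ Real.log N := Real.log_nonneg hN0
    rw [Real.norm_of_nonneg (by positivity), Real.norm_of_nonneg (by positivity)] at hN
    linarith
  filter_upwards [hlog, hpow, eventually_ge_atTop 1] with X hL hP hX1 a z n hn hrep hg
  set L : ℝ := Real.log X with hLdef
  have hX0 : (0 : ℝ) < X := by exact_mod_cast hX1
  have hL0 : 0 < L := by linarith
  have h2 : RA (SX a X) n ≤ 1 := LG_RA_le (N := X) hrep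
  have h3 : ((good a z n).card : ℝ) / L ≤ Rz z (SX a X) n :=
    LG_Rz_ge (a := a) (z := z) (n := n) (N := X) hn
  have h4 : (X : ℝ) / L ^ (B + 1) ≤ Rz z (SX a X) n := by
    refine le_trans ?_ h3
    rw [pow_succ, ← div_div]
    gcongr
  have h5 : (2 : ℝ) ≤ (X : ℝ) / L ^ (B + 1) := by
    rw [le_div_iff₀ (by positivity)]
    exact hP
  have h6 : (X : ℝ) / L ^ (B + 2) ≤ (X : ℝ) / L ^ (B + 1) / 4 := by
    have e : L ^ (B + 2) = L ^ (B + 1) * L := by rw [← pow_succ]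
    rw [e, ← div_div]
    gcongr
  rw [abs_sub_comm]
  refine lt_of_lt_of_le ?_ (le_abs_self _)
  linarith

end Pool.Agent.Lib.MP_e3f158_nt.TP
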