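import Mathlib

/-!
# MP_e3f158_nt, thin progressions: elementary bounds for the final step (helper33)
-/

set_option autoImplicit false

namespace Pool.Agent.Lib.MP_e3f158_nt.TP

open Finset Filter

/-- Shift by `h` of the progression `(c, q, T)`. -/
def shf (h : ℕ) (p : ℤ × ℕ × ℕ) : ℤ × ℕ × ℕ := (p.1 - h, p.2.1, p.2.2)

open Classical in
/-- All shifts by `0 ≤ h ≤ H`. -/
noncomputable def fat (H : ℕ) (PP : Finset (ℤ × ℕ × ℕ)) : Finset (ℤ × ℕ × ℕ) :=
  (range (H + 1)).biUnion fun h => PP.image (shf h)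

theorem mem_fat {H : ℕ} {PP : Finset (ℤ × ℕ × ℕ)} {p : ℤ × ℕ × ℕ} (hp : p ∈ fat H PP) :
    ∃ p' ∈ PP, p.2 = p'.2 := by
  classical
  unfold fat at hp
  rw [mem_biUnion] at hp
  obtain ⟨h, _, hp⟩ := hp
  rw [mem_image] at hp
  obtain ⟨p', hp', rfl⟩ := hp
  exact ⟨p', hp', rfl⟩

theorem shf_mem_fat {H h : ℕ} {PP : Finset (ℤ × ℕ × ℕ)} {p : ℤ × ℕ × ℕ} (hh : h ≤ H)
    (hp : p ∈ PP) : shf h p ∈ fat H PP := by
  classical
  unfold fat
  rw [mem_biUnion]
  exact ⟨h, by rw [mem_range]; omega, mem_image_of_mem _ hp⟩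

theorem sum_fat (H : ℕ) (PP : Finset (ℤ × ℕ × ℕ)) (w : ℕ × ℕ → ℝ) (hw : ∀ x, 0 ≤ w x) :
    ∑ p ∈ fat H PP, w p.2 ≤ (H + 1) * ∑ p ∈ PP, w p.2 := by
  classical
  unfold fat
  have h1 : ∑ p ∈ (range (H + 1)).biUnion (fun h => PP.image (shf h)), w p.2 ≤
      ∑ h ∈ range (H + 1), ∑ p ∈ PP.image (shf h), w p.2 := by
    induction (range (H + 1)) using Finset.induction_on with
    | empty => simp
    | insert h S hS ih =>
      rw [biUnion_insert, sum_insert hS]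
      refine le_trans ?_ (add_le_add_right ih _)
      have := sum_union_inter (s₁ := PP.image (shf h))
        (s₂ := S.biUnion (fun h => PP.image (shf h))) (f := fun p => w p.2)
      have h2 : 0 ≤ ∑ p ∈ PP.image (shf h) ∩ S.biUnion (fun h => PP.image (shf h)), w p.2 :=
        sum_nonneg fun _ _ => hw _
      linarith
  refine h1.trans ?_
  have h2 : ∀ h ∈ range (H + 1), ∑ p ∈ PP.image (shf h), w p.2 ≤ ∑ p ∈ PP, w p.2 := by
    intro h _
    rw [sum_image]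
    · exact le_of_eq (sum_congr rfl fun p _ => rfl)
    · intro p _ p' _ hpp
      unfold shf at hpp
      rw [Prod.mk.injEq, Prod.mk.injEq] at hpp
      obtain ⟨ha, hb, hc⟩ := hpp
      refine Prod.ext (by linarith) (Prod.ext hb hc)
  refine (sum_le_sum h2).trans ?_
  rw [sum_const, card_range, nsmul_eq_mul]
  push_cast
  exact le_refl _

/-- all the elementary inequalities needed at the end -/
theorem scale_facts (Kg D F : ℕ) (ε κ : ℝ) (hε : 0 < ε) (hκ : 0 < κ) : ∀ᶠ N : ℕ in atTop,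
    1 ≤ N ∧ (1 : ℝ) ≤ Real.log N ∧ (3 : ℝ) ≤ Real.log (3 * N : ℕ) ∧
    (Real.log (3 * N : ℕ)) ^ D ≤ (Real.log N) ^ (D + 1) ∧
    (Real.log (Real.log (3 * N : ℕ))) ^ Kg ≤ (Real.log (Real.log N)) ^ (Kg + 1) ∧
    (Real.log (Real.log (3 * N : ℕ))) ^ Kg ≤ N ∧
    0 ≤ (Real.log (Real.log (3 * N : ℕ))) ^ Kg ∧
    3 ^ κ * (((Real.log (Real.log (3 * N : ℕ))) ^ Kg + 1) * (F / Real.log (3 * N : ℕ))) ≤ 1 ∧
    F * (((Real.log (Real.log (3 * N : ℕ))) ^ Kg + 2) * (3 * N : ℕ) ^ (1 / 2 + ε / 2)) ≤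
      (N : ℝ) ^ (1 / 2 + ε) ∧ ((32 : ℝ) * Real.sqrt N) ^ κ ≤ (N : ℝ) ^ κ := by
  have hlog : Tendsto (fun N : ℕ => Real.log (N : ℝ)) atTop atTop :=
    Real.tendsto_log_atTop.comp tendsto_natCast_atTop_atTop
  have hloglog : Tendsto (fun N : ℕ => Real.log (Real.log (N : ℝ))) atTop atTop :=
    Real.tendsto_log_atTop.comp hlog
  have h3N : Tendsto (fun N : ℕ => 3 * N) atTop atTop :=
    tendsto_id.const_mul_atTop' (by norm_num)
  have hlog3 : Tendsto (fun N : ℕ => Real.log ((3 * N : ℕ) : ℝ)) atTop atTop := hlog.comp h3N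
  have hlogpow : ∀ (k : ℕ) (c : ℝ), 0 < c → ∀ᶠ x : ℝ in atTop, (Real.log x) ^ k ≤ c * x := by
    intro k c hc
    have h1 : (fun x : ℝ => (Real.log x) ^ k) =o[atTop] (fun x : ℝ => x) :=
      Real.isLittleO_pow_log_id_atTop
    filter_upwards [h1.bound hc, eventually_ge_atTop 1] with x hx hx1
    have hl : 0 ≤ Real.log x := Real.log_nonneg hx1
    rw [Real.norm_of_nonneg (by positivity), Real.norm_of_nonneg (by linarith)] at hx
    exact hx
  have h3κ : (0 : ℝ) < 3 ^ κ := by positivity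
  have e1 := hlog3.eventually (hlogpow Kg (1 / (2 * ((F + 1) * 3 ^ κ))) (by positivity))
  have e2 := hlog3.eventually (hlogpow Kg 1 one_pos)
  have e3 := hlog3.eventually_ge_atTop (2 * ((F + 1) * 3 ^ κ))
  have e4 := hlog.eventually_ge_atTop (max 3 (2 ^ D))
  have e5 := hloglog.eventually_ge_atTop (2 ^ Kg)
  have e6 := tendsto_natCast_atTop_atTop.eventually (hlogpow 1 (1 / 2) (by norm_num))
  have hrp : ∀ᶠ x : ℝ in atTop,
      (F + 1) * (4 * 3 ^ (1 / 2 + ε / 2)) * Real.log x ≤ x ^ (ε / 2) := by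
    have h1 := isLittleO_log_rpow_atTop (show (0 : ℝ) < ε / 2 by positivity)
    have hc : (0 : ℝ) < (F + 1) * (4 * 3 ^ (1 / 2 + ε / 2)) := by positivity
    filter_upwards [h1.bound (c := 1 / ((F + 1) * (4 * 3 ^ (1 / 2 + ε / 2)))) (by positivity),
      eventually_ge_atTop 1] with x hx hx1
    have hl : 0 ≤ Real.log x := Real.log_nonneg hx1
    rw [Real.norm_of_nonneg hl, Real.norm_of_nonneg (by positivity), one_div,
      le_inv_mul_iff₀ hc] at hx
    exact hx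
  have e7 := tendsto_natCast_atTop_atTop.eventually hrp
  filter_upwards [e1, e2, e3, e4, e5, e6, e7, eventually_ge_atTop 1024] with N f1 f2 f3 f4 f5 f6 f7 f8
  have hN : (1024 : ℝ) ≤ N := by exact_mod_cast f8
  have hN0 : (0 : ℝ) < N := by linarith
  set ℓ : ℝ := Real.log N with hℓ
  have hℓ3 : (3 : ℝ) ≤ ℓ := (le_max_left _ _).trans f4
  have hℓD : (2 : ℝ) ^ D ≤ ℓ := (le_max_right _ _).trans f4
  have hcast : ((3 * N : ℕ) : ℝ) = 3 * (N : ℝ) := by push_cast; ring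
  have hlog3' : Real.log (3 : ℝ) ≤ 2 := by
    have := Real.log_le_sub_one_of_pos (show (0 : ℝ) < 3 by norm_num)
    linarith
  have hlog3p : 0 ≤ Real.log (3 : ℝ) := Real.log_nonneg (by norm_num)
  set M : ℝ := Real.log ((3 * N : ℕ) : ℝ) with hM
  have hMe : M = Real.log 3 + ℓ := by
    rw [hM, hcast, Real.log_mul (by norm_num) hN0.ne']
  have hM3 : (3 : ℝ) ≤ M := by linarith
  have hM2 : M ≤ 2 * ℓ := by linarith
  have hll0 : 0 ≤ Real.log M := Real.log_nonneg (by linarith)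
  have hll : Real.log M ≤ 2 * Real.log ℓ := by
    have h1 : Real.log (ℓ ^ 2) = 2 * Real.log ℓ := by rw [Real.log_pow]; norm_num
    rw [← h1]
    exact Real.log_le_log (by linarith) (by nlinarith)
  have hll1 : 0 ≤ Real.log ℓ := Real.log_nonneg (by linarith)
  refine ⟨by omega, by linarith, hM3, ?_, ?_, ?_, by positivity, ?_, ?_, ?_⟩
  · calc M ^ D ≤ (2 * ℓ) ^ D := by gcongr
      _ = 2 ^ D * ℓ ^ D := by rw [mul_pow]
      _ ≤ ℓ * ℓ ^ D := by gcongr
      _ = ℓ ^ (D + 1) := by rw [pow_succ]; ring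
  · calc (Real.log M) ^ Kg ≤ (2 * Real.log ℓ) ^ Kg := by gcongr
      _ = 2 ^ Kg * (Real.log ℓ) ^ Kg := by rw [mul_pow]
      _ ≤ Real.log ℓ * (Real.log ℓ) ^ Kg := by gcongr
      _ = (Real.log ℓ) ^ (Kg + 1) := by rw [pow_succ]; ring
  · rw [one_mul] at f2
    rw [pow_one] at f6
    linarith
  · have h1 : (Real.log M) ^ Kg + 1 ≤ M / ((F + 1) * 3 ^ κ) := by
      have h2 : 1 / (2 * ((F + 1) * 3 ^ κ)) * M + 1 / (2 * ((F + 1) * 3 ^ κ)) * M =
          M / ((F + 1) * 3 ^ κ) := by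
        field_simp; ring
      have h3 : 1 ≤ 1 / (2 * ((F + 1) * 3 ^ κ)) * M := by
        rw [one_div, le_inv_mul_iff₀ (by positivity), mul_one]
        exact f3
      linarith
    have hM0 : 0 < M := by linarith
    calc 3 ^ κ * (((Real.log M) ^ Kg + 1) * (F / M)) ≤ 3 ^ κ * (M / ((F + 1) * 3 ^ κ) * (F / M)) := by
          gcongr
      _ = F / (F + 1) := by
          field_simp
      _ ≤ 1 := by
          rw [div_le_one (by positivity)]
          linarith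
  · rw [hcast, Real.mul_rpow (by norm_num) hN0.le]
    have h1 : (N : ℝ) ^ (1 / 2 + ε) = (N : ℝ) ^ (ε / 2) * (N : ℝ) ^ (1 / 2 + ε / 2) := by
      rw [← Real.rpow_add hN0]
      congr 1; ring
    rw [h1]
    have h2 : (Real.log M) ^ Kg + 2 ≤ 4 * ℓ := by
      rw [one_mul] at f2
      linarith
    calc F * (((Real.log M) ^ Kg + 2) * (3 ^ (1 / 2 + ε / 2) * (N : ℝ) ^ (1 / 2 + ε / 2)))
        ≤ (F + 1) * ((4 * ℓ) * (3 ^ (1 / 2 + ε / 2) * (N : ℝ) ^ (1 / 2 + ε / 2))) := by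
          gcongr
          linarith
      _ = ((F + 1) * (4 * 3 ^ (1 / 2 + ε / 2)) * ℓ) * (N : ℝ) ^ (1 / 2 + ε / 2) := by ring
      _ ≤ (N : ℝ) ^ (ε / 2) * (N : ℝ) ^ (1 / 2 + ε / 2) := by gcongr
  · refine Real.rpow_le_rpow (by positivity) ?_ hκ.le
    have h1 : (32 : ℝ) ≤ Real.sqrt N := by
      rw [show (32 : ℝ) = Real.sqrt 1024 by
        rw [show (1024 : ℝ) = 32 ^ 2 by norm_num, Real.sqrt_sq (by norm_num)]]
      exact Real.sqrt_le_sqrt hN
    calc (32 : ℝ) * Real.sqrt N ≤ Real.sqrt N * Real.sqrt N := by gcongr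
      _ = N := Real.mul_self_sqrt hN0.le

end Pool.Agent.Lib.MP_e3f158_nt.TP
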