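import Pool.Agent.Lib.MP_e3f158_nt.TP.Exc
import Pool.Agent.Lib.MP_e3f158_nt.TP.Every
import Pool.Agent.Lib.MP_e3f158_nt.TP.Fat
import Pool.Agent.Lib.MP_e3f158_nt.TP.Even
import Pool.Agent.Lib.MP_dd84fd_nt.GX.Nrm

/-!
# MP_e3f158_nt, thin progressions: the final step (helper33)
-/

set_option autoImplicit false

namespace Pool.Agent.Lib.MP_e3f158_nt.TP

open Finset Filter Pool.MP_67663b_nt.Odd Pool.MP_dd84fd_nt.En Pool.MP_dd84fd_nt.E2
  Pool.MP_dd84fd_nt.LS Pool.MP_dd84fd_nt.GX Pool.Agent.Lib.MP_e3f158_nt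
  Pool.Agent.Lib.MP_e3f158_nt.G Pool.Agent.Lib.MP_e3f158_nt.U

/-- from the scale `X = 3 N` to the scale `N` -/
theorem conv_p (K N : ℕ) (hN : 1 ≤ N) (h1 : (1 : ℝ) ≤ Real.log N)
    (h3 : (3 : ℝ) ≤ Real.log (3 * N : ℕ)) (q T : ℕ)
    (hq : (q : ℝ) ≤ Real.sqrt (3 * N : ℕ)) (hT : Real.sqrt (3 * N : ℕ) / 32 ≤ (T : ℝ))
    (hT' : (T : ℝ) ≤ ((3 * N : ℕ) : ℝ) / (Real.log (3 * N : ℕ)) ^ (K + 1)) :
    (q : ℝ) ≤ 2 * Real.sqrt N ∧ Real.sqrt N / 32 ≤ (T : ℝ) ∧ (T : ℝ) ≤ N / (Real.log N) ^ K := by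
  have hN' : (1 : ℝ) ≤ N := by exact_mod_cast hN
  have hcast : ((3 * N : ℕ) : ℝ) = 3 * (N : ℝ) := by push_cast; ring
  refine ⟨hq.trans ?_, le_trans ?_ hT, hT'.trans ?_⟩
  · rw [hcast]
    rw [show (2 : ℝ) = Real.sqrt 4 by
      rw [show (4 : ℝ) = 2 ^ 2 by norm_num, Real.sqrt_sq (by norm_num)], ← Real.sqrt_mul (by norm_num)]
    exact Real.sqrt_le_sqrt (by linarith)
  · have : Real.sqrt N ≤ Real.sqrt (3 * N : ℕ) := Real.sqrt_le_sqrt (by rw [hcast]; linarith)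
    linarith
  · have hle : Real.log N ≤ Real.log (3 * N : ℕ) :=
      Real.log_le_log (by linarith) (by rw [hcast]; linarith)
    generalize Real.log (3 * N : ℕ) = M at h3 hle ⊢
    rw [hcast, div_le_div_iff₀ (by positivity) (by positivity), pow_succ]
    have h2 : (Real.log N) ^ K ≤ M ^ K := by gcongr
    have h4 : 3 * (Real.log N) ^ K ≤ M * M ^ K := mul_le_mul h3 h2 (by positivity) (by linarith)
    calc 3 * (N : ℝ) * (Real.log N) ^ K = N * (3 * (Real.log N) ^ K) := by ring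
      _ ≤ N * (M * M ^ K) := by gcongr
      _ = _ := by ring

/-- a lower bound of the weights bounds the number of progressions -/
theorem card_of_weight (N : ℕ) (hN : 1 ≤ N) (κ : ℝ) (hκ : 0 < κ) (P : Finset (ℤ × ℕ × ℕ))
    (h1 : ∀ p ∈ P, Real.sqrt N / 32 ≤ (p.2.2 : ℝ)) (h2 : ∑ p ∈ P, ((p.2.2 : ℝ) / N) ^ κ ≤ 1)
    (h3 : ((32 : ℝ) * Real.sqrt N) ^ κ ≤ (N : ℝ) ^ κ) : (P.card : ℝ) ≤ (N : ℝ) ^ κ := by
  have hN' : (1 : ℝ) ≤ N := by exact_mod_cast hN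
  have hs : 0 < Real.sqrt N := Real.sqrt_pos.2 (by linarith)
  refine le_trans ?_ h3
  have h4 : ∀ p ∈ P, (((32 : ℝ) * Real.sqrt N) ^ κ)⁻¹ ≤ ((p.2.2 : ℝ) / N) ^ κ := by
    intro p hp
    rw [← Real.inv_rpow (by positivity)]
    refine Real.rpow_le_rpow (by positivity) ?_ hκ.le
    rw [inv_eq_one_div, div_le_div_iff₀ (by positivity) (by linarith)]
    have h5 := h1 p hp
    have h6 : Real.sqrt N * Real.sqrt N = N := Real.mul_self_sqrt (by linarith)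
    have h7 : Real.sqrt N ≤ 32 * (p.2.2 : ℝ) := by linarith
    nlinarith
  have h5 : (P.card : ℝ) * (((32 : ℝ) * Real.sqrt N) ^ κ)⁻¹ ≤ 1 := by
    calc (P.card : ℝ) * (((32 : ℝ) * Real.sqrt N) ^ κ)⁻¹ =
        ∑ p ∈ P, (((32 : ℝ) * Real.sqrt N) ^ κ)⁻¹ := by rw [sum_const, nsmul_eq_mul]
      _ ≤ _ := sum_le_sum h4
      _ ≤ 1 := h2
  rw [mul_inv_le_iff₀ (by positivity), one_mul] at h5
  exact h5

theorem apm_shf {p : ℤ × ℕ × ℕ} {n m h : ℕ} (hm : m = n + h) (hp : apm p m) : apm (shf h p) n := by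
  obtain ⟨i, hi, hi2⟩ := hp
  refine ⟨i, hi, ?_⟩
  unfold shf
  show (n : ℤ) = p.1 - h + i * p.2.1
  rw [hm] at hi2
  push_cast at hi2
  linarith

theorem card_biUnion_le_mul (m : ℕ) (U : ℕ → Finset ℕ) (c : ℝ)
    (h : ∀ a, ((U a).card : ℝ) ≤ c) : (((range m).biUnion U).card : ℝ) ≤ m * c := by
  have h1 : (((range m).biUnion U).card : ℝ) ≤ ∑ a ∈ range m, ((U a).card : ℝ) := by
    exact_mod_cast card_biUnion_le
  refine h1.trans ((sum_le_sum fun a _ => h a).trans ?_)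
  rw [sum_const, card_range, nsmul_eq_mul]

theorem sum_biUnion_le_mul (m : ℕ) (PP : ℕ → Finset (ℤ × ℕ × ℕ)) (w : ℤ × ℕ × ℕ → ℝ) (c : ℝ)
    (hw : ∀ p, 0 ≤ w p) (h : ∀ a, ∑ p ∈ PP a, w p ≤ c) :
    ∑ p ∈ (range m).biUnion PP, w p ≤ m * c := by
  classical
  induction m with
  | zero => simp
  | succ m ih =>
    rw [range_add_one, biUnion_insert]
    have h1 := sum_union_inter (s₁ := PP m) (s₂ := (range m).biUnion PP) (f := w)
    have h2 : 0 ≤ ∑ p ∈ PP m ∩ (range m).biUnion PP, w p := sum_nonneg fun _ _ => hw _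
    have h3 := h m
    push_cast
    linarith

theorem thin : ∃ K₀ : ℕ, ∀ (A K : ℕ) (ε κ : ℝ), 0 < ε → 0 < κ → ∃ C : ℕ,
    ∀ᶠ N : ℕ in atTop, ∃ P : Finset (ℤ × ℕ × ℕ),
      (∀ p ∈ P, 1 ≤ p.2.1 ∧ (p.2.1 : ℝ) ≤ 2 * Real.sqrt N ∧ Real.sqrt N / 32 ≤ (p.2.2 : ℝ) ∧
        (p.2.2 : ℝ) ≤ N / (Real.log N) ^ K) ∧
      (P.card : ℝ) ≤ (N : ℝ) ^ κ ∧
      ∑ p ∈ P, ((p.2.2 : ℝ) / N) ^ κ ≤ 1 ∧
      ∃ EX : Finset ℕ, (EX.card : ℝ) ≤ (N : ℝ) ^ (1 / 2 + ε) ∧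
        ∀ n : ℕ, N < n → n ≤ 2 * N → (∀ p ∈ P, ¬ apm p n) → n ∉ EX →
        (Even n → HasRep 0 0 n) ∧ ∀ a ≤ A,
        (HasRep a 0 n ∨ ∀ S : Finset ℕ, (∀ r ∈ S, (∃ x : ℕ, 1 ≤ x ∧ ipr a x = r) ∧ r + 1 < n ∧
            ∀ p : ℕ, p.Prime → p ∣ n - r → (Real.log N) ^ C < (p : ℝ)) →
            (S.card : ℝ) < N / (Real.log N) ^ A) ∧
        ∃ m : ℕ, Even m ∧ n < m ∧ (m : ℝ) ≤ n + (Real.log (Real.log N)) ^ K₀ ∧ HasRep a 0 m := by
  classical
  obtain ⟨Kg, hKg⟩ := every_good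
  refine ⟨Kg + 1, fun A K ε κ hε hκ => ?_⟩
  set B : ℕ := A + 4 with hB
  obtain ⟨D1, h1⟩ := cover_set (B + 2) (K + 1) (ε / 2) κ (half_pos hε) hκ
  obtain ⟨D2, h2⟩ := cover 3 (K + 1) (ε / 2) κ (half_pos hε) hκ
  obtain ⟨D3, h3⟩ := even_big
  set D : ℕ := max 1 (max D1 (max D2 D3)) with hD
  have hD0 : 1 ≤ D := le_max_left _ _
  have hD1 : D1 ≤ D := (le_max_left _ _).trans (le_max_right _ _)
  have hD2 : D2 ≤ D := ((le_max_left _ _).trans (le_max_right _ _)).trans (le_max_right _ _)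
  have hD3 : D3 ≤ D := ((le_max_right _ _).trans (le_max_right _ _)).trans (le_max_right _ _)
  obtain ⟨X1, hX1⟩ := h1 D hD1
  obtain ⟨X2, hX2⟩ := h2 D hD2
  obtain ⟨X3, hX3⟩ := h3 D hD3
  obtain ⟨X4, hX4⟩ := vb_VV D
  have h3N : Tendsto (fun N : ℕ => 3 * N) atTop atTop :=
    tendsto_id.const_mul_atTop' (by norm_num)
  have e1 : ∀ᶠ N : ℕ in atTop, ∀ a ∈ range (A + 1), ∀ x : ℕ, 3 * N ≤ 4 * x →
      x + ⌊(Real.log (Real.log (3 * N : ℕ))) ^ Kg⌋₊ ≤ 3 * N →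
      ∃ n ∈ Ioc x (x + ⌊(Real.log (Real.log (3 * N : ℕ))) ^ Kg⌋₊), Even n ∧
      ((3 * N : ℕ) : ℝ) / (Real.log (3 * N : ℕ)) ^ (a + 4) ≤
        ((good a (wX D (3 * N)) n).card : ℝ) := by
    rw [eventually_all_finset]
    intro a _
    exact h3N.eventually (hKg a D hD0)
  have e2 := h3N.eventually (exc_big B)
  refine ⟨D + 1, ?_⟩
  filter_upwards [e1, e2, scale_facts Kg D (A + 2) ε κ hε hκ, eventually_ge_atTop X1,
    eventually_ge_atTop X2, eventually_ge_atTop X3, eventually_ge_atTop X4]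
    with N g1 g2 g3 g4 g5 g6 g7
  obtain ⟨s1, s2, s3, s4, s5, s6, s7, s8, s9, s10⟩ := g3
  set X : ℕ := 3 * N with hX
  set M : ℝ := Real.log (X : ℝ) with hM
  set Hr : ℝ := (Real.log M) ^ Kg with hHr
  set H : ℕ := ⌊Hr⌋₊ with hH
  have hHle : (H : ℝ) ≤ Hr := Nat.floor_le s7
  have hN' : (1 : ℝ) ≤ N := by exact_mod_cast s1
  have hcast : (X : ℝ) = 3 * (N : ℝ) := by rw [hX]; push_cast; ring
  have hXpos : (0 : ℝ) < X := by rw [hcast]; linarith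
  have hHN : H ≤ N := by exact_mod_cast hHle.trans s6
  have hlogle : Real.log N ≤ M := Real.log_le_log (by linarith) (by rw [hcast]; linarith)
  have hwX : ((wX D X : ℕ) : ℝ) ≤ M ^ D := Nat.floor_le (by positivity)
  -- the coverings
  have hcov := fun a => hX1 X (by omega) (SX a X) (filter_subset _ _)
  choose PPf p1 w1 u1 using hcov
  have : NeZero (3 * X) := ⟨by omega⟩
  obtain ⟨PP2, p2, w2, u2⟩ := hX2 X (by omega) (3 * X) le_rfl (VV (3 * X) X (wX D X))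
    (hX4 X (by omega) (3 * X) le_rfl (wX D X) hwX)
    ((Icc 1 X).filter fun n => X ≤ 3 * n ∧ Even n ∧ ¬ HasRep 0 0 n) (filter_subset _ _) (by
      intro n hn
      rw [mem_filter, mem_Icc] at hn
      exact hX3 X (by omega) (3 * X) le_rfl n hn.2.1 hn.1.2 hn.2.2.1 hn.2.2.2)
  set Uf : ℕ → Finset ℕ := fun a => ((Icc 1 X).filter fun n => (X : ℝ) / (Real.log X) ^ (B + 2) <
        |RA (SX a X) n - Rz (wX D X) (SX a X) n|).filter fun n => ∀ p ∈ PPf a, ¬ apm p n with hUf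
  set PP1 := (range (A + 1)).biUnion PPf with hPP1
  set U1 := (range (A + 1)).biUnion Uf with hU1
  set U2 := ((Icc 1 X).filter fun n => X ≤ 3 * n ∧ Even n ∧ ¬ HasRep 0 0 n).filter
    fun n => ∀ p ∈ PP2, ¬ apm p n with hU2
  have hu1 : (U1.card : ℝ) ≤ (A + 1) * (X : ℝ) ^ (1 / 2 + ε / 2) := by
    have := card_biUnion_le_mul (A + 1) Uf ((X : ℝ) ^ (1 / 2 + ε / 2)) u1
    push_cast at this
    exact this
  have hw1 : ∑ p ∈ PP1, ((p.2.2 : ℝ) / X) ^ κ ≤ (A + 1) * (1 / M) := by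
    have := sum_biUnion_le_mul (A + 1) PPf (fun p => ((p.2.2 : ℝ) / X) ^ κ) (1 / M)
      (fun p => by positivity) w1
    push_cast at this
    exact this
  have hM0 : 0 < M := by linarith
  have hpp : ∀ p ∈ fat H (PP1 ∪ PP2), 1 ≤ p.2.1 ∧ (p.2.1 : ℝ) ≤ 2 * Real.sqrt N ∧
      Real.sqrt N / 32 ≤ (p.2.2 : ℝ) ∧ (p.2.2 : ℝ) ≤ N / (Real.log N) ^ K := by
    intro p hp
    obtain ⟨p', hp', he⟩ := mem_fat hp
    rw [he]
    have h5 : 1 ≤ p'.2.1 ∧ (p'.2.1 : ℝ) ≤ Real.sqrt X ∧ Real.sqrt X / 32 ≤ (p'.2.2 : ℝ) ∧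
        (p'.2.2 : ℝ) ≤ X / (Real.log X) ^ (K + 1) := by
      rcases mem_union.1 hp' with h | h
      · rw [hPP1, mem_biUnion] at h
        obtain ⟨a, _, h⟩ := h
        exact p1 a p' h
      · exact p2 p' h
    obtain ⟨a1, a2, a3, a4⟩ := h5
    obtain ⟨b1, b2, b3⟩ := conv_p K N s1 s2 s3 p'.2.1 p'.2.2 a2 a3 a4
    exact ⟨a1, b1, b2, b3⟩
  have hww : ∑ p ∈ fat H (PP1 ∪ PP2), ((p.2.2 : ℝ) / N) ^ κ ≤ 1 := by
    refine (sum_fat H (PP1 ∪ PP2) (fun x => ((x.2 : ℝ) / N) ^ κ) (fun x => by positivity)).trans ?_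
    have h5 : ∑ p ∈ PP1 ∪ PP2, ((p.2.2 : ℝ) / N) ^ κ ≤ 3 ^ κ * (((A + 2 : ℕ) : ℝ) / M) := by
      have h6 : ∀ p : ℤ × ℕ × ℕ, ((p.2.2 : ℝ) / N) ^ κ = 3 ^ κ * ((p.2.2 : ℝ) / X) ^ κ := by
        intro p
        rw [← Real.mul_rpow (by norm_num) (by positivity)]
        congr 1
        rw [hcast]
        field_simp
      have h7 : ∑ p ∈ PP1 ∪ PP2, ((p.2.2 : ℝ) / X) ^ κ ≤
          ∑ p ∈ PP1, ((p.2.2 : ℝ) / X) ^ κ + ∑ p ∈ PP2, ((p.2.2 : ℝ) / X) ^ κ := by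
        rw [← sum_union_inter]
        have : 0 ≤ ∑ p ∈ PP1 ∩ PP2, ((p.2.2 : ℝ) / X) ^ κ := sum_nonneg fun _ _ => by positivity
        linarith
      calc ∑ p ∈ PP1 ∪ PP2, ((p.2.2 : ℝ) / N) ^ κ =
          3 ^ κ * ∑ p ∈ PP1 ∪ PP2, ((p.2.2 : ℝ) / X) ^ κ := by
            rw [mul_sum]; exact sum_congr rfl fun p _ => h6 p
        _ ≤ 3 ^ κ * ((A + 1) * (1 / M) + 1 / M) := by
            gcongr
            linarith
        _ = 3 ^ κ * (((A + 2 : ℕ) : ℝ) / M) := by push_cast; ring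
    calc ((H : ℝ) + 1) * ∑ p ∈ PP1 ∪ PP2, ((p.2.2 : ℝ) / N) ^ κ
        ≤ (Hr + 1) * (3 ^ κ * (((A + 2 : ℕ) : ℝ) / M)) := by
          refine mul_le_mul (by linarith) h5 (sum_nonneg fun _ _ => by positivity) (by linarith)
      _ = 3 ^ κ * ((Hr + 1) * (((A + 2 : ℕ) : ℝ) / M)) := by ring
      _ ≤ 1 := s8
  refine ⟨fat H (PP1 ∪ PP2), hpp, ?_, hww, ?_⟩
  · exact card_of_weight N s1 κ hκ _ (fun p hp => (hpp p hp).2.2.1) hww s10
  refine ⟨(U1 ∪ U2) ∪ (Icc 1 H).biUnion (fun h => U1.image (fun n => n - h)), ?_, ?_⟩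
  · -- the size of the exceptional set
    have h5 : (((U1 ∪ U2) ∪ (Icc 1 H).biUnion (fun h => U1.image (fun n => n - h))).card : ℝ) ≤
        U1.card + U2.card + H * U1.card := by
      have h6 : ((Icc 1 H).biUnion (fun h => U1.image (fun n => n - h))).card ≤ H * U1.card := by
        refine card_biUnion_le.trans ?_
        calc ∑ h ∈ Icc 1 H, (U1.image (fun n => n - h)).card ≤ ∑ h ∈ Icc 1 H, U1.card :=
              sum_le_sum fun h _ => card_image_le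
          _ = H * U1.card := by rw [sum_const, Nat.card_Icc, Nat.add_sub_cancel, smul_eq_mul]
      have h7 := card_union_le (U1 ∪ U2) ((Icc 1 H).biUnion (fun h => U1.image (fun n => n - h)))
      have h8 := card_union_le U1 U2
      have h9 : ((U1 ∪ U2) ∪ (Icc 1 H).biUnion (fun h => U1.image (fun n => n - h))).card ≤
          U1.card + U2.card + H * U1.card := by omega
      exact_mod_cast h9
    refine h5.trans (le_trans ?_ s9)
    have h6 : 0 ≤ (X : ℝ) ^ (1 / 2 + ε / 2) := by positivity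
    have hA0 : (0 : ℝ) ≤ A := Nat.cast_nonneg A
    calc (U1.card : ℝ) + U2.card + H * U1.card ≤
        (A + 1) * (X : ℝ) ^ (1 / 2 + ε / 2) + (X : ℝ) ^ (1 / 2 + ε / 2) +
          Hr * ((A + 1) * (X : ℝ) ^ (1 / 2 + ε / 2)) := by
          refine add_le_add (add_le_add hu1 u2) (mul_le_mul hHle hu1 (Nat.cast_nonneg _) s7)
      _ ≤ ((A + 2 : ℕ) : ℝ) * ((Hr + 2) * (X : ℝ) ^ (1 / 2 + ε / 2)) := by
          push_cast
          have h7 : 0 ≤ Hr * (X : ℝ) ^ (1 / 2 + ε / 2) := mul_nonneg s7 h6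
          have h8 : 0 ≤ (A : ℝ) * (X : ℝ) ^ (1 / 2 + ε / 2) := mul_nonneg hA0 h6
          nlinarith
  · intro n hn1 hn2 hnP hnE
    rw [mem_union, mem_union] at hnE
    push Not at hnE
    obtain ⟨⟨hnU1, hnU2⟩, hnI⟩ := hnE
    have hnX : n ≤ X := by omega
    -- membership of `U1`
    have keyU1 : ∀ a ≤ A, ∀ m : ℕ, 1 ≤ m → m ≤ X → ¬ HasRep a 0 m →
        (X : ℝ) / M ^ B ≤ ((good a (wX D X) m).card : ℝ) → (∀ p ∈ PP1, ¬ apm p m) → m ∈ U1 := by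
      intro a ha m hm1 hm2 hm3 hm4 hm5
      rw [hU1, mem_biUnion]
      refine ⟨a, by rw [mem_range]; omega, ?_⟩
      rw [hUf]
      show m ∈ ((Icc 1 X).filter fun n => (X : ℝ) / (Real.log X) ^ (B + 2) <
        |RA (SX a X) n - Rz (wX D X) (SX a X) n|).filter fun n => ∀ p ∈ PPf a, ¬ apm p n
      rw [mem_filter, mem_filter, mem_Icc]
      refine ⟨⟨⟨hm1, hm2⟩, g2 a (wX D X) m hm2 hm3 hm4⟩, fun p hp => hm5 p ?_⟩
      rw [hPP1, mem_biUnion]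
      exact ⟨a, by rw [mem_range]; omega, hp⟩
    have hPP : ∀ p ∈ PP1 ∪ PP2, ¬ apm p n := by
      intro p hp hpn
      exact hnP (shf 0 p) (shf_mem_fat (Nat.zero_le _) hp) (apm_shf (by simp) hpn)
    refine ⟨?_, fun a ha => ⟨?_, ?_⟩⟩
    · intro hev
      by_contra hcon
      refine hnU2 ?_
      rw [hU2, mem_filter, mem_filter, mem_Icc]
      exact ⟨⟨⟨by omega, hnX⟩, by omega, hev, hcon⟩, fun p hp => hPP p (mem_union_right _ hp)⟩
    · by_contra hcon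
      rw [not_or] at hcon
      obtain ⟨c1, c2⟩ := hcon
      push Not at c2
      obtain ⟨S, hS, hSc⟩ := c2
      refine hnU1 (keyU1 a ha n (by omega) hnX c1 ?_ (fun p hp => hPP p (mem_union_left _ hp)))
      have h5 : S ⊆ good a (wX D X) n := by
        intro r hr
        obtain ⟨⟨x, hx, hxr⟩, hrn, hrp⟩ := hS r hr
        have hr1 : 1 ≤ r := by
          rw [← hxr]
          exact (ipr_prime a x).one_le
        rw [good, mem_filter, mem_Icc]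
        refine ⟨⟨hr1, by omega⟩, ⟨x, hx, hxr⟩, hrn, ?_⟩
        rw [coprime_primorial_iff]
        intro p hpp hpz hpd
        have h6 := hrp p hpp hpd
        have h7 : (p : ℝ) ≤ M ^ D := le_trans (by exact_mod_cast hpz) hwX
        linarith
      have h6 : (S.card : ℝ) ≤ ((good a (wX D X) n).card : ℝ) := by
        exact_mod_cast card_le_card h5
      refine le_trans ?_ (hSc.trans h6)
      have h7 : M ^ (A + 1) ≤ M ^ B := pow_le_pow_right₀ (by linarith) (by omega)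
      calc (X : ℝ) / M ^ B ≤ X / M ^ (A + 1) := by gcongr
        _ ≤ N / (Real.log N) ^ A := by
          rw [hcast, div_le_div_iff₀ (by positivity) (by positivity), pow_succ]
          have h8 : (Real.log N) ^ A ≤ M ^ A := by gcongr
          have h9 : 3 * (Real.log N) ^ A ≤ M * M ^ A :=
            mul_le_mul s3 h8 (by positivity) (by linarith)
          calc 3 * (N : ℝ) * (Real.log N) ^ A = N * (3 * (Real.log N) ^ A) := by ring
            _ ≤ N * (M * M ^ A) := by gcongr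
            _ = _ := by ring
    · obtain ⟨m, hm, hmev, hmg⟩ := g1 a (by rw [mem_range]; omega) n (by omega) (by
        show n + H ≤ X
        omega)
      have hm' : n < m ∧ m ≤ n + H := mem_Ioc.1 hm
      refine ⟨m, hmev, hm'.1, ?_, ?_⟩
      · have h5 : (m : ℝ) ≤ n + H := by exact_mod_cast hm'.2
        linarith
      · by_contra hcon
        have h6 : (X : ℝ) / M ^ B ≤ ((good a (wX D X) m).card : ℝ) := by
          refine le_trans ?_ hmg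
          have h7 : M ^ (a + 4) ≤ M ^ B := pow_le_pow_right₀ (by linarith) (by omega)
          gcongr
        by_cases hcov : ∀ p ∈ PP1, ¬ apm p m
        · have h7 := keyU1 a ha m (by omega) (by omega) hcon h6 hcov
          refine hnI ?_
          rw [mem_biUnion]
          refine ⟨m - n, by rw [mem_Icc]; omega, ?_⟩
          rw [mem_image]
          exact ⟨m, h7, by omega⟩
        · push Not at hcov
          obtain ⟨p, hp, hpm⟩ := hcov
          exact hnP (shf (m - n) p) (shf_mem_fat (by omega) (mem_union_left _ hp))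
            (apm_shf (by omega) hpm)

end Pool.Agent.Lib.MP_e3f158_nt.TP
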